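import Pool.Agent.Results.MP_f5afab_co.FourHolesEverySpeed

set_option autoImplicit false

namespace Pool.Agent.V5helper40.FH

open Set Filter Topology
open Pool.Agent.Results.MP_f5afab_co.FourHolesEverySpeed

/-- being outside of the hull is stable under small movements of one of the points -/
lemma open_hull {V : Set Pt} (hV : V.Finite) {x y : Pt} (h : y ∉ convexHull ℝ (insert x V)) :
    ∀ᶠ p in 𝓝 x, y ∉ convexHull ℝ (insert p V) := by
  obtain ⟨f, u, h1, h2⟩ := geometric_hahn_banach_closed_point (convex_convexHull ℝ (insert x V))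
    ((hV.insert x).isClosed_convexHull ℝ) h
  have h3 : ∀ᶠ p in 𝓝 x, f p < u :=
    (f.continuous.tendsto x).eventually_lt_const (h1 x (subset_convexHull ℝ _ (mem_insert _ _)))
  filter_upwards [h3] with p hp hmem
  have h4 : convexHull ℝ (insert p V) ⊆ {z | f z < u} := by
    apply convexHull_min
    · intro z hz
      rcases hz with rfl | hz
      · exact hp
      · exact h1 z (subset_convexHull ℝ _ (mem_insert_of_mem _ hz))
    · exact convex_halfSpace_lt f.isLinear u
  have h5 : f y < u := h4 hmem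
  linarith

lemma lf_strict (f : Pt →L[ℝ] ℝ) {V : Set Pt} {x z : Pt} (hV : ∀ v ∈ V, f x < f v)
    (hz : z ∈ convexHull ℝ (insert x V)) (hfz : f z ≤ f x) : z = x := by
  rcases V.eq_empty_or_nonempty with rfl | hne
  · simpa using hz
  · rw [convexHull_insert hne, mem_convexJoin] at hz
    obtain ⟨x', hx', w, hw, hz⟩ := hz
    rw [mem_singleton_iff] at hx'
    subst hx'
    have hfw : f x' < f w :=
      (convexHull_min (fun v hv => hV v hv) (convex_halfSpace_gt f.isLinear (f x')) :
        convexHull ℝ V ⊆ {z | f x' < f z}) hw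
    obtain ⟨a, b, ha, hb, hab, rfl⟩ := hz
    simp only [map_add, map_smul, smul_eq_mul] at hfz
    have h1 : b * (f w - f x') ≤ 0 := by
      have : a = 1 - b := by linarith
      subst this
      nlinarith
    have hb0 : b = 0 := by
      rcases eq_or_lt_of_le hb with h | h
      · exact h.symm
      · exfalso
        have := mul_pos h (sub_pos.2 hfw)
        linarith
    subst hb0
    have : a = 1 := by linarith
    subst this
    simp

lemma lf_le (f : Pt →L[ℝ] ℝ) {V : Set Pt} {z : Pt} {u : ℝ} (hV : ∀ v ∈ V, f v ≤ u)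
    (hz : z ∈ convexHull ℝ V) : f z ≤ u :=
  (convexHull_min (fun v hv => hV v hv) (convex_halfSpace_le f.isLinear u) :
        convexHull ℝ V ⊆ {z | f z ≤ u}) hz

lemma lf_ge (f : Pt →L[ℝ] ℝ) {V : Set Pt} {z : Pt} {u : ℝ} (hV : ∀ v ∈ V, u ≤ f v)
    (hz : z ∈ convexHull ℝ V) : u ≤ f z :=
  (convexHull_min (fun v hv => hV v hv) (convex_halfSpace_ge f.isLinear u) :
        convexHull ℝ V ⊆ {z | u ≤ f z}) hz

lemma lf_gt (f : Pt →L[ℝ] ℝ) {V : Set Pt} {z : Pt} {u : ℝ} (hV : ∀ v ∈ V, u < f v)
    (hz : z ∈ convexHull ℝ V) : u < f z :=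
  (convexHull_min (fun v hv => hV v hv) (convex_halfSpace_gt f.isLinear u) :
        convexHull ℝ V ⊆ {z | u < f z}) hz

/-- linear part of `det c d` -/
noncomputable def dl (c d : Pt) : Pt →L[ℝ] ℝ :=
  (d.1 - c.1) • ContinuousLinearMap.snd ℝ ℝ ℝ - (d.2 - c.2) • ContinuousLinearMap.fst ℝ ℝ ℝ

lemma dl_apply (c d z : Pt) : dl c d z = (d.1 - c.1) * z.2 - (d.2 - c.2) * z.1 := by
  simp [dl]

lemma det_dl (c d z : Pt) : det c d z = dl c d z - dl c d c := by
  rw [dl_apply, dl_apply]; unfold det; ring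

lemma dl_cd (c d : Pt) : dl c d d = dl c d c := by
  rw [dl_apply, dl_apply]; ring

/-- the functional `τ y - x` -/
noncomputable def hh (τ : ℝ) : Pt →L[ℝ] ℝ :=
  τ • ContinuousLinearMap.snd ℝ ℝ ℝ - ContinuousLinearMap.fst ℝ ℝ ℝ

lemma hh_apply (τ : ℝ) (z : Pt) : hh τ z = τ * z.2 - z.1 := by
  simp [hh]

/-! ### extending a hole -/

lemma move_neg {c d : Pt} (hcd : c ≠ d) (m : Pt) (hm : det c d m = 0) :
    ∀ W : Set Pt, IsOpen W → m ∈ W → ∃ q ∈ W, det c d q < 0 := by
  intro W hW hmW
  set v : Pt := (d.2 - c.2, -(d.1 - c.1)) with hv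
  have hcont : Continuous (fun t : ℝ => m + t • v) := by fun_prop
  have h3 : ∀ᶠ t in 𝓝 (0:ℝ), m + t • v ∈ W := by
    apply hcont.continuousAt.eventually
    simpa using hW.mem_nhds hmW
  have h4 : ∀ᶠ t in 𝓝[>] (0:ℝ), m + t • v ∈ W := h3.filter_mono nhdsWithin_le_nhds
  obtain ⟨t, ht1, ht2⟩ := (h4.and self_mem_nhdsWithin).exists
  refine ⟨m + t • v, ht1, ?_⟩
  have h5 : det c d (m + t • v) = det c d m - t * ((d.1 - c.1) ^ 2 + (d.2 - c.2) ^ 2) := by
    rw [hv]; unfold det
    simp only [Prod.fst_add, Prod.snd_add, Prod.smul_mk, smul_eq_mul]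
    ring
  rw [h5, hm]
  have h6 : 0 < (d.1 - c.1) ^ 2 + (d.2 - c.2) ^ 2 := by
    rcases eq_or_ne (d.1 - c.1) 0 with h7 | h7
    · have h8 : d.2 - c.2 ≠ 0 := by
        intro h8; apply hcd; apply Prod.ext <;> linarith
      have := sq_nonneg (d.1 - c.1)
      have : 0 < (d.2 - c.2) ^ 2 := by positivity
      linarith
    · have := sq_nonneg (d.2 - c.2)
      have : 0 < (d.1 - c.1) ^ 2 := by positivity
      linarith
  have := mul_pos (show (0:ℝ) < t from ht2) h6
  linarith

lemma extend_hole {S M H : Finset Pt} {k : ℕ} (hS : GenPos S) (hH : IsHole k S H) (hHM : H ⊆ M)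
    {c d : Pt} (hc : c ∈ H) (hd : d ∈ H) (hcd : c ≠ d) (hside : ∀ z ∈ H, 0 ≤ det c d z) :
    ∃ q, q ∉ S ∧ GenPos (insert q S) ∧ ∃ H' ⊆ insert q M, IsHole (k + 1) (insert q S) H' := by
  classical
  obtain ⟨hHS, hcard, hvert, hemp⟩ := hH
  set m : Pt := (1 / 2 : ℝ) • c + (1 / 2 : ℝ) • d with hm
  have hm3 : det c d m = 0 := by
    rw [hm, det_comb _ _ _ _ _ _ (by norm_num), det_self₁, det_self₂]; ring
  have hmid : ∀ C : Set Pt, Convex ℝ C → c ∈ C → d ∈ C → m ∈ C := fun C hC h1 h2 =>
    hC h1 h2 (by norm_num) (by norm_num) (by norm_num)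
  -- emptiness
  have W1 : ∀ᶠ q in 𝓝 m, ∀ y ∈ S \ H, y ∉ convexHull ℝ (insert q (H : Set Pt)) := by
    rw [Filter.eventually_all_finset]
    intro y hy
    rw [Finset.mem_sdiff] at hy
    apply open_hull H.finite_toSet
    intro hmem
    have hsub : convexHull ℝ (insert m (H : Set Pt)) ⊆ convexHull ℝ (H : Set Pt) := by
      apply convexHull_min _ (convex_convexHull ℝ _)
      intro z hz
      rcases hz with rfl | hz
      · exact hmid _ (convex_convexHull ℝ _) (subset_convexHull ℝ _ hc) (subset_convexHull ℝ _ hd)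
      · exact subset_convexHull ℝ _ hz
    have : y ∈ convexHull ℝ (H : Set Pt) ∩ (S : Set Pt) := ⟨hsub hmem, hy.1⟩
    rw [hemp] at this
    exact hy.2 this
  have W2 : ∀ᶠ q in 𝓝 m, ∀ z ∈ H, z ∉ convexHull ℝ (insert q ((H : Set Pt) \ {z})) := by
    rw [Filter.eventually_all_finset]
    intro z hz
    apply open_hull (H.finite_toSet.subset Set.sdiff_subset)
    intro hmem
    obtain ⟨f, u, h1, h2⟩ := geometric_hahn_banach_closed_point
      (convex_convexHull ℝ ((H : Set Pt) \ {z}))
      ((H.finite_toSet.subset Set.sdiff_subset).isClosed_convexHull ℝ) (hvert z hz)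
    have h3 : ∀ w ∈ H, w ≠ z → f w < f z := fun w hw hwz =>
      (h1 w (subset_convexHull ℝ _ ⟨hw, hwz⟩)).trans h2
    have hfm : f m < f z := by
      have e : f m = (1 / 2) * f c + (1 / 2) * f d := by rw [hm]; simp
      rw [e]
      by_cases hcz : c = z
      · have := h3 d hd (by rw [← hcz]; exact hcd.symm)
        rw [hcz]; linarith
      · have h4 := h3 c hc hcz
        by_cases hdz : d = z
        · rw [hdz]; linarith
        · have := h3 d hd hdz
          linarith
    have h4 : convexHull ℝ (insert m ((H : Set Pt) \ {z})) ⊆ {w | f w < f z} := by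
      apply convexHull_min
      · intro w hw
        rcases hw with rfl | hw
        · exact hfm
        · exact h3 w hw.1 hw.2
      · exact convex_halfSpace_lt f.isLinear _
    have h5 : f z < f z := h4 hmem
    exact lt_irrefl _ h5
  obtain ⟨W, hWs, hWo, hmW⟩ := mem_nhds_iff.1 (W1.and W2)
  obtain ⟨q₀, hq₀, hq₀'⟩ := move_neg hcd m hm3 W hWo hmW
  obtain ⟨q, hqU, hqS, hq⟩ := exists_generic S (W ∩ {q | det c d q < 0})
    (hWo.inter (isOpen_lt (continuous_det c d) continuous_const)) ⟨q₀, hq₀, hq₀'⟩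
  obtain ⟨hqW, hqneg⟩ := hqU
  have hqneg' : det c d q < 0 := hqneg
  obtain ⟨w1, w2⟩ := hWs hqW
  have hqH : q ∉ H := fun h => hqS (hHS h)
  refine ⟨q, hqS, genPos_insert hS hq, insert q H, Finset.insert_subset_insert q hHM,
    Finset.insert_subset_insert q hHS, ?_, ?_, ?_⟩
  · rw [Finset.card_insert_of_notMem hqH, hcard]
  · intro x hx hmem
    rw [Finset.coe_insert] at hmem
    rw [Finset.mem_insert] at hx
    rcases hx with rfl | hx
    · have h1 : (0:ℝ) ≤ det c d x := by
        refine hull_ge (T := _) ?_ hmem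
        rintro z ⟨hz, hzq⟩
        rcases hz with rfl | hz
        · exact absurd rfl hzq
        · exact hside z hz
      linarith
    · refine w2 x hx (convexHull_mono ?_ hmem)
      rintro z ⟨hz, hzx⟩
      rcases hz with rfl | hz
      · exact mem_insert _ _
      · exact mem_insert_of_mem _ ⟨hz, hzx⟩
  · apply Subset.antisymm
    · rintro x ⟨hx1, hx2⟩
      rw [Finset.mem_coe] at hx2 ⊢
      rw [Finset.mem_insert] at hx2 ⊢
      rcases hx2 with rfl | hx2
      · exact Or.inl rfl
      · by_contra hcon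
        push Not at hcon
        rw [Finset.coe_insert] at hx1
        exact w1 x (Finset.mem_sdiff.2 ⟨hx2, hcon.2⟩) hx1
    · intro x hx
      refine ⟨subset_convexHull ℝ _ hx, ?_⟩
      rw [Finset.mem_coe] at hx ⊢
      rw [Finset.mem_insert] at hx ⊢
      exact hx.imp id (fun h => hHS h)

/-! ### quadrangles with the edge `c d` -/

/-- `a, b, c, d` are the vertices of a convex quadrangle with the edge `c d` -/
def Quad (σ : ℝ) (a b c d : Pt) : Prop :=
  0 < σ * det c d a ∧ 0 < σ * det c d b ∧ a ∉ convexHull ℝ ({b, c, d} : Set Pt) ∧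
    b ∉ convexHull ℝ ({a, c, d} : Set Pt)

lemma Quad.swap {σ : ℝ} {a b c d : Pt} (h : Quad σ a b c d) : Quad (-σ) a b d c := by
  obtain ⟨h1, h2, h3, h4⟩ := h
  have e1 : ({b, d, c} : Set Pt) = {b, c, d} := by ext z; simp; tauto
  have e2 : ({a, d, c} : Set Pt) = {a, c, d} := by ext z; simp; tauto
  refine ⟨?_, ?_, ?_, ?_⟩
  · rw [det_swap]; linarith
  · rw [det_swap]; linarith
  · rw [e1]; exact h3
  · rw [e2]; exact h4

lemma quad_ge {σ : ℝ} {a b c d z : Pt} (h : Quad σ a b c d)
    (hz : z ∈ convexHull ℝ ({a, b, c, d} : Set Pt)) : 0 ≤ σ * det c d z := by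
  have := lf_ge (σ • dl c d) (V := {a, b, c, d}) (u := σ * dl c d c) (z := z) (by
    intro v hv
    simp only [mem_insert_iff, mem_singleton_iff] at hv
    have h1 := h.1
    have h2 := h.2.1
    rw [det_dl] at h1 h2
    rcases hv with rfl | rfl | rfl | rfl
    · simp only [ContinuousLinearMap.smul_apply, smul_eq_mul]; linarith
    · simp only [ContinuousLinearMap.smul_apply, smul_eq_mul]; linarith
    · simp
    · simp only [ContinuousLinearMap.smul_apply, smul_eq_mul]; rw [dl_cd]) hz
  simp only [ContinuousLinearMap.smul_apply, smul_eq_mul] at this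
  rw [det_dl]; linarith

lemma quad_vert {σ : ℝ} {a b c d : Pt} (h : Quad σ a b c d) (hcd : c ≠ d) :
    c ∉ convexHull ℝ ({a, b, d} : Set Pt) ∧ d ∉ convexHull ℝ ({a, b, c} : Set Pt) := by
  have h1 := h.1
  have h2 := h.2.1
  rw [det_dl] at h1 h2
  constructor
  · intro hmem
    have e : ({a, b, d} : Set Pt) = insert d {a, b} := by ext z; simp; tauto
    rw [e] at hmem
    refine hcd (lf_strict (σ • dl c d) ?_ hmem ?_)
    · intro v hv
      simp only [mem_insert_iff, mem_singleton_iff] at hv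
      simp only [ContinuousLinearMap.smul_apply, smul_eq_mul]
      rw [dl_cd]
      rcases hv with rfl | rfl <;> linarith
    · simp only [ContinuousLinearMap.smul_apply, smul_eq_mul]
      rw [dl_cd]
  · intro hmem
    have e : ({a, b, c} : Set Pt) = insert c {a, b} := by ext z; simp; tauto
    rw [e] at hmem
    refine hcd (lf_strict (σ • dl c d) ?_ hmem ?_).symm
    · intro v hv
      simp only [mem_insert_iff, mem_singleton_iff] at hv
      simp only [ContinuousLinearMap.smul_apply, smul_eq_mul]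
      rcases hv with rfl | rfl <;> linarith
    · simp only [ContinuousLinearMap.smul_apply, smul_eq_mul]
      rw [dl_cd]

/-- the quadrangle contains no further point of `S` -/
def Empt (S : Finset Pt) (a b c d : Pt) : Prop :=
  ∀ y ∈ S, y ∈ convexHull ℝ ({a, b, c, d} : Set Pt) → y = a ∨ y = b ∨ y = c ∨ y = d

lemma win1_aux {s n : ℕ} {M B : Finset Pt} (hS : GenPos (M ∪ B)) {a b c d : Pt} {σ : ℝ} (hσ : 0 < σ)
    (ha : a ∈ M) (hb : b ∈ M) (hc : c ∈ M) (hd : d ∈ M) (hab : a ≠ b) (hcd : c ≠ d)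
    (hQ : Quad σ a b c d) (hE : Empt (M ∪ B) a b c d) : MakerWinsIn s 5 (n + 1) M B := by
  classical
  have d1 : 0 < det c d a := (mul_pos_iff_of_pos_left hσ).1 hQ.1
  have d2 : 0 < det c d b := (mul_pos_iff_of_pos_left hσ).1 hQ.2.1
  have hac : a ≠ c := by rintro rfl; rw [det_self₁] at d1; exact lt_irrefl _ d1
  have had : a ≠ d := by rintro rfl; rw [det_self₂] at d1; exact lt_irrefl _ d1
  have hbc : b ≠ c := by rintro rfl; rw [det_self₁] at d2; exact lt_irrefl _ d2
  have hbd : b ≠ d := by rintro rfl; rw [det_self₂] at d2; exact lt_irrefl _ d2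
  have hsubM : ({a, b, c, d} : Finset Pt) ⊆ M := by
    intro x hx
    simp only [Finset.mem_insert, Finset.mem_singleton] at hx
    rcases hx with rfl | rfl | rfl | rfl <;> assumption
  have hcoe : ((({a, b, c, d} : Finset Pt)) : Set Pt) = {a, b, c, d} := by simp
  have hhole : IsHole 4 (M ∪ B) {a, b, c, d} := by
    refine ⟨hsubM.trans Finset.subset_union_left, ?_, ?_, ?_⟩
    · rw [Finset.card_insert_of_notMem, Finset.card_insert_of_notMem, Finset.card_insert_of_notMem,
        Finset.card_singleton]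
      · simp [hcd]
      · simp [hbc, hbd]
      · simp [hab, hac, had]
    · rw [hcoe]
      intro x hx hmem
      simp only [Finset.mem_insert, Finset.mem_singleton] at hx
      obtain ⟨v1, v2⟩ := quad_vert hQ hcd
      rcases hx with rfl | rfl | rfl | rfl
      · refine hQ.2.2.1 (convexHull_mono ?_ hmem)
        rintro z ⟨hz, hzx⟩
        simp only [mem_insert_iff, mem_singleton_iff] at hz hzx ⊢
        tauto
      · refine hQ.2.2.2 (convexHull_mono ?_ hmem)
        rintro z ⟨hz, hzx⟩
        simp only [mem_insert_iff, mem_singleton_iff] at hz hzx ⊢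
        tauto
      · refine v1 (convexHull_mono ?_ hmem)
        rintro z ⟨hz, hzx⟩
        simp only [mem_insert_iff, mem_singleton_iff] at hz hzx ⊢
        tauto
      · refine v2 (convexHull_mono ?_ hmem)
        rintro z ⟨hz, hzx⟩
        simp only [mem_insert_iff, mem_singleton_iff] at hz hzx ⊢
        tauto
    · rw [hcoe]
      apply Subset.antisymm
      · rintro x ⟨hx1, hx2⟩
        have := hE x hx2 hx1
        simp only [mem_insert_iff, mem_singleton_iff]
        exact this
      · intro x hx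
        refine ⟨subset_convexHull ℝ _ hx, ?_⟩
        rw [Finset.mem_coe]
        apply Finset.mem_union_left
        apply hsubM
        simp only [mem_insert_iff, mem_singleton_iff] at hx
        simp only [Finset.mem_insert, Finset.mem_singleton]
        exact hx
  obtain ⟨q, hq1, hq2, H', hH1, hH2⟩ := extend_hole hS hhole hsubM (c := c) (d := d) (by simp) (by simp) hcd (by
    intro z hz
    simp only [Finset.mem_insert, Finset.mem_singleton] at hz
    rcases hz with rfl | rfl | rfl | rfl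
    · exact d1.le
    · exact d2.le
    · rw [det_self₁]
    · rw [det_self₂])
  exact ⟨q, hq1, hq2, Or.inl ⟨H', hH1, hH2⟩⟩

lemma win1 {s n : ℕ} {M B : Finset Pt} (hS : GenPos (M ∪ B)) {a b c d : Pt} {σ : ℝ} (hσ : σ ≠ 0)
    (ha : a ∈ M) (hb : b ∈ M) (hc : c ∈ M) (hd : d ∈ M) (hab : a ≠ b) (hcd : c ≠ d)
    (hQ : Quad σ a b c d) (hE : Empt (M ∪ B) a b c d) : MakerWinsIn s 5 (n + 1) M B := by
  rcases lt_or_gt_of_ne hσ with h | h
  · refine win1_aux (σ := -σ) hS (by linarith) ha hb hd hc hab hcd.symm hQ.swap ?_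
    intro y hy hmem
    have e1 : ({a, b, d, c} : Set Pt) = {a, b, c, d} := by ext z; simp; tauto
    rw [e1] at hmem
    have := hE y hy hmem
    tauto
  · exact win1_aux hS h ha hb hc hd hab hcd hQ hE

/-- moving the vertex `d` to a point `p` near the inner point `x` of the edge -/
lemma near {σ : ℝ} {a b c d x : Pt} {t : ℝ} (ht0 : 0 < t) (ht1 : t < 1) (hx : x = c + t • (d - c))
    (hcd : c ≠ d) (hQ : Quad σ a b c d) (f : Pt →L[ℝ] ℝ) (fa : f x < f a) (fb : f x < f b) (fc : f x < f c)
    {S : Finset Pt} (hE : ∀ y ∈ S, y ∈ convexHull ℝ ({a, b, c, d} : Set Pt) →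
      (y = a ∨ y = b ∨ y = c ∨ y = d) ∨ (f y ≤ f x ∧ y ≠ x)) :
    ∀ᶠ p in 𝓝 x, Quad σ a b c p ∧
      (∀ y ∈ S, y ∈ convexHull ℝ ({a, b, c, p} : Set Pt) → y = a ∨ y = b ∨ y = c) ∧
      f p < f a ∧ f p < f b ∧ f p < f c := by
  have hdx : d ≠ x := by
    rintro h
    have h1 : (1 - t) • (d - c) = 0 := by
      have : (1 - t) • (d - c) = d - (c + t • (d - c)) := by module
      rw [this, ← hx, ← h, sub_self]
    rcases smul_eq_zero.1 h1 with h2 | h2
    · linarith
    · exact hcd (sub_eq_zero.1 h2).symm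
  have hfx : f x = (1 - t) * f c + t * f d := by
    rw [hx]; simp only [map_add, map_smul, map_sub, smul_eq_mul]; ring
  have hfd : f d < f x := by
    by_contra h
    push Not at h
    have h1 : (1 - t) * f x < (1 - t) * f c := mul_lt_mul_of_pos_left fc (by linarith)
    have h2 : t * f x ≤ t * f d := mul_le_mul_of_nonneg_left h ht0.le
    have h3 : f x = (1 - t) * f x + t * f x := by ring
    linarith
  have hdet : ∀ z, det c x z = t * det c d z := by
    intro z; rw [hx]; unfold det
    simp only [Prod.fst_add, Prod.snd_add, Prod.smul_fst, Prod.smul_snd, Prod.fst_sub, Prod.snd_sub, smul_eq_mul]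
    ring
  have hdc : ∀ z, Continuous (fun p => σ * det c p z) := by
    intro z; unfold det; fun_prop
  have hseg : ∀ C : Set Pt, Convex ℝ C → c ∈ C → d ∈ C → x ∈ C := by
    intro C hC h1 h2
    have := hC h1 h2 (a := 1 - t) (b := t) (by linarith) ht0.le (by ring)
    have e : x = (1 - t) • c + t • d := by rw [hx]; module
    rw [e]; exact this
  have v1 : ∀ᶠ p in 𝓝 x, 0 < σ * det c p a := by
    refine ((hdc a).tendsto x).eventually_const_lt ?_
    rw [hdet]
    have := mul_pos ht0 hQ.1
    linarith [mul_left_comm σ t (det c d a)]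
  have v2 : ∀ᶠ p in 𝓝 x, 0 < σ * det c p b := by
    refine ((hdc b).tendsto x).eventually_const_lt ?_
    rw [hdet]
    have := mul_pos ht0 hQ.2.1
    linarith [mul_left_comm σ t (det c d b)]
  have v3 : ∀ᶠ p in 𝓝 x, a ∉ convexHull ℝ (insert p ({b, c} : Set Pt)) := by
    apply open_hull (by simp)
    intro hmem
    apply hQ.2.2.1
    refine convexHull_min ?_ (convex_convexHull ℝ _) hmem
    intro z hz
    simp only [mem_insert_iff, mem_singleton_iff] at hz
    rcases hz with rfl | rfl | rfl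
    · exact hseg _ (convex_convexHull ℝ _) (subset_convexHull ℝ _ (by simp)) (subset_convexHull ℝ _ (by simp))
    · exact subset_convexHull ℝ _ (by simp)
    · exact subset_convexHull ℝ _ (by simp)
  have v4 : ∀ᶠ p in 𝓝 x, b ∉ convexHull ℝ (insert p ({a, c} : Set Pt)) := by
    apply open_hull (by simp)
    intro hmem
    apply hQ.2.2.2
    refine convexHull_min ?_ (convex_convexHull ℝ _) hmem
    intro z hz
    simp only [mem_insert_iff, mem_singleton_iff] at hz
    rcases hz with rfl | rfl | rfl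
    · exact hseg _ (convex_convexHull ℝ _) (subset_convexHull ℝ _ (by simp)) (subset_convexHull ℝ _ (by simp))
    · exact subset_convexHull ℝ _ (by simp)
    · exact subset_convexHull ℝ _ (by simp)
  have v5 : ∀ᶠ p in 𝓝 x, ∀ y ∈ S, ¬ (y = a ∨ y = b ∨ y = c) →
      y ∉ convexHull ℝ (insert p ({a, b, c} : Set Pt)) := by
    rw [Filter.eventually_all_finset]
    intro y hy
    by_cases hyv : y = a ∨ y = b ∨ y = c
    · exact Filter.Eventually.of_forall fun p h => absurd hyv h
    · have : y ∉ convexHull ℝ (insert x ({a, b, c} : Set Pt)) := by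
        intro hmem
        have hmem2 : y ∈ convexHull ℝ ({a, b, c, d} : Set Pt) := by
          refine convexHull_min ?_ (convex_convexHull ℝ _) hmem
          intro z hz
          simp only [mem_insert_iff, mem_singleton_iff] at hz
          rcases hz with rfl | rfl | rfl | rfl
          · exact hseg _ (convex_convexHull ℝ _) (subset_convexHull ℝ _ (by simp)) (subset_convexHull ℝ _ (by simp))
          · exact subset_convexHull ℝ _ (by simp)
          · exact subset_convexHull ℝ _ (by simp)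
          · exact subset_convexHull ℝ _ (by simp)
        have hV : ∀ v ∈ ({a, b, c} : Set Pt), f x < f v := by
          intro v hv
          simp only [mem_insert_iff, mem_singleton_iff] at hv
          rcases hv with rfl | rfl | rfl <;> assumption
        rcases hE y hy hmem2 with h | ⟨h, h'⟩
        · have hyd : y = d := by tauto
          subst hyd
          exact hdx (lf_strict f hV hmem hfd.le)
        · exact h' (lf_strict f hV hmem h)
      filter_upwards [open_hull (by simp) this] with p hp _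
      exact hp
  have v6 : ∀ᶠ p in 𝓝 x, f p < f a := (f.continuous.tendsto x).eventually_lt_const fa
  have v7 : ∀ᶠ p in 𝓝 x, f p < f b := (f.continuous.tendsto x).eventually_lt_const fb
  have v8 : ∀ᶠ p in 𝓝 x, f p < f c := (f.continuous.tendsto x).eventually_lt_const fc
  filter_upwards [v1, v2, v3, v4, v5, v6, v7, v8] with p w1 w2 w3 w4 w5 w6 w7 w8
  have e1 : (insert p ({b, c} : Set Pt)) = {b, c, p} := by ext z; simp; tauto
  have e2 : (insert p ({a, c} : Set Pt)) = {a, c, p} := by ext z; simp; tauto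
  have e3 : (insert p ({a, b, c} : Set Pt)) = {a, b, c, p} := by ext z; simp; tauto
  rw [e1] at w3
  rw [e2] at w4
  rw [e3] at w5
  refine ⟨⟨w1, w2, w3, w4⟩, ?_, w6, w7, w8⟩
  intro y hy hmem
  by_contra hcon
  exact w5 y hy hcon hmem

/-- two points cannot hit three sets which are disjoint for them -/
lemma three_hit {T : Finset Pt} (hT : T.card = 2) {C₁ C₂ C₃ : Set Pt} (h12 : ∀ z ∈ T, z ∈ C₁ → z ∉ C₂)
    (h13 : ∀ z ∈ T, z ∈ C₁ → z ∉ C₃) (h23 : ∀ z ∈ T, z ∈ C₂ → z ∉ C₃) :
    (∀ z ∈ T, z ∉ C₁) ∨ (∀ z ∈ T, z ∉ C₂) ∨ (∀ z ∈ T, z ∉ C₃) := by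
  classical
  by_contra hcon
  push Not at hcon
  obtain ⟨⟨x, hx, hx1⟩, ⟨y, hy, hy2⟩, ⟨z, hz, hz3⟩⟩ := hcon
  have hxy : x ≠ y := by rintro rfl; exact h12 x hx hx1 hy2
  have hxz : x ≠ z := by rintro rfl; exact h13 x hx hx1 hz3
  have hyz : y ≠ z := by rintro rfl; exact h23 y hy hy2 hz3
  have h3 : ({x, y, z} : Finset Pt).card = 3 := by
    rw [Finset.card_insert_of_notMem, Finset.card_insert_of_notMem, Finset.card_singleton]
    · simp [hyz]
    · simp [hxy, hxz]
  have h4 : ({x, y, z} : Finset Pt) ⊆ T := by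
    intro w hw
    simp only [Finset.mem_insert, Finset.mem_singleton] at hw
    rcases hw with rfl | rfl | rfl <;> assumption
  have := Finset.card_le_card h4
  omega

/-- a step of the game -/
lemma mw_step {s k n : ℕ} {M B : Finset Pt} (hS : GenPos (M ∪ B)) (U : Set Pt) (hU : IsOpen U)
    (hne : U.Nonempty) (h : ∀ p ∈ U, p ∉ M ∪ B → (∀ x ∈ M ∪ B, ∀ y ∈ M ∪ B, x ≠ y → det x y p ≠ 0) →
      ∀ T : Finset Pt, T.card = s → Disjoint T (insert p (M ∪ B)) → GenPos (T ∪ insert p (M ∪ B)) →
      MakerWinsIn s k n (insert p M) (T ∪ B)) : MakerWinsIn s k (n + 1) M B := by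
  obtain ⟨p, hpU, hpS, hp⟩ := exists_generic (M ∪ B) U hU hne
  exact ⟨p, hpS, genPos_insert hS hp, Or.inr (fun T hT hd hG => h p hpU hpS hp T hT hd hG)⟩

end Pool.Agent.V5helper40.FH
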