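import Pool.Agent.V5helper40.FH.Basic

set_option autoImplicit false

namespace Pool.Agent.V5helper40.FH

open Set Filter Topology
open Pool.Agent.Results.MP_f5afab_co.FourHolesEverySpeed

lemma union_eq (M B T : Finset Pt) (p : Pt) : insert p M ∪ (T ∪ B) = T ∪ insert p (M ∪ B) := by
  ext x; simp only [Finset.mem_union, Finset.mem_insert]; tauto

lemma win_p {n : ℕ} {M B T : Finset Pt} {p : Pt} (hp : p ∉ M ∪ B)
    (hG : GenPos (T ∪ insert p (M ∪ B)))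
    {σ : ℝ} (hσ : σ ≠ 0) {a b c : Pt} (ha : a ∈ M) (hb : b ∈ M) (hc : c ∈ M) (hab : a ≠ b)
    (hQ : Quad σ a b c p)
    (hE : ∀ y ∈ M ∪ B, y ∈ convexHull ℝ ({a, b, c, p} : Set Pt) → y = a ∨ y = b ∨ y = c)
    (hun : ∀ z ∈ T, z ∉ convexHull ℝ ({a, b, c, p} : Set Pt)) :
    MakerWinsIn 2 5 (n + 1) (insert p M) (T ∪ B) := by
  have hcp : c ≠ p := by rintro rfl; exact hp (Finset.mem_union_left B hc)
  refine win1 (by rw [union_eq]; exact hG) hσ (Finset.mem_insert_of_mem ha)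
    (Finset.mem_insert_of_mem hb) (Finset.mem_insert_of_mem hc) (Finset.mem_insert_self _ _) hab hcp hQ ?_
  intro y hy hmem
  rw [union_eq, Finset.mem_union, Finset.mem_insert] at hy
  rcases hy with hy | rfl | hy
  · exact absurd hmem (hun y hy)
  · exact Or.inr (Or.inr (Or.inr rfl))
  · have := hE y hy hmem
    tauto

lemma stageQ {n : ℕ} {M B T : Finset Pt} {p : Pt} (hp : p ∉ M ∪ B) (hT : T.card = 2)
    (hG : GenPos (T ∪ insert p (M ∪ B)))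
    {σ₁ σ₂ σ₃ : ℝ} (hσ₁ : σ₁ ≠ 0) (hσ₂ : σ₂ ≠ 0) (hσ₃ : σ₃ ≠ 0) {e₁ e₂ e₃ : Pt × Pt} {c₁ c₂ c₃ : Pt}
    (h₁ : e₁.1 ∈ M ∧ e₁.2 ∈ M ∧ e₁.1 ≠ e₁.2) (h₂ : e₂.1 ∈ M ∧ e₂.2 ∈ M ∧ e₂.1 ≠ e₂.2)
    (h₃ : e₃.1 ∈ M ∧ e₃.2 ∈ M ∧ e₃.1 ≠ e₃.2) (hc₁ : c₁ ∈ M) (hc₂ : c₂ ∈ M) (hc₃ : c₃ ∈ M)
    (Q₁ : Quad σ₁ e₁.1 e₁.2 c₁ p) (Q₂ : Quad σ₂ e₂.1 e₂.2 c₂ p) (Q₃ : Quad σ₃ e₃.1 e₃.2 c₃ p)
    (E₁ : ∀ y ∈ M ∪ B, y ∈ convexHull ℝ ({e₁.1, e₁.2, c₁, p} : Set Pt) → y = e₁.1 ∨ y = e₁.2 ∨ y = c₁)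
    (E₂ : ∀ y ∈ M ∪ B, y ∈ convexHull ℝ ({e₂.1, e₂.2, c₂, p} : Set Pt) → y = e₂.1 ∨ y = e₂.2 ∨ y = c₂)
    (E₃ : ∀ y ∈ M ∪ B, y ∈ convexHull ℝ ({e₃.1, e₃.2, c₃, p} : Set Pt) → y = e₃.1 ∨ y = e₃.2 ∨ y = c₃)
    (h12 : ∀ z ∈ T, z ∈ convexHull ℝ ({e₁.1, e₁.2, c₁, p} : Set Pt) →
      z ∉ convexHull ℝ ({e₂.1, e₂.2, c₂, p} : Set Pt))
    (h13 : ∀ z ∈ T, z ∈ convexHull ℝ ({e₁.1, e₁.2, c₁, p} : Set Pt) →
      z ∉ convexHull ℝ ({e₃.1, e₃.2, c₃, p} : Set Pt))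
    (h23 : ∀ z ∈ T, z ∈ convexHull ℝ ({e₂.1, e₂.2, c₂, p} : Set Pt) →
      z ∉ convexHull ℝ ({e₃.1, e₃.2, c₃, p} : Set Pt)) :
    MakerWinsIn 2 5 (n + 1) (insert p M) (T ∪ B) := by
  rcases three_hit hT h12 h13 h23 with h | h | h
  · exact win_p hp hG hσ₁ h₁.1 h₁.2.1 hc₁ h₁.2.2 Q₁ E₁ h
  · exact win_p hp hG hσ₂ h₂.1 h₂.2.1 hc₂ h₂.2.2 Q₂ E₂ h
  · exact win_p hp hG hσ₃ h₃.1 h₃.2.1 hc₃ h₃.2.2 Q₃ E₃ h

/-- hypothesis of `near` -/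
lemma hE_of {σ : ℝ} {a b c d x : Pt} {f : Pt →L[ℝ] ℝ} {S₂ T : Finset Pt} {z z' : Pt}
    (hQ : Quad σ a b c d) (hE : Empt S₂ a b c d) (hT : ∀ y ∈ T, y = z ∨ y = z')
    (hz' : σ * det c d z' < 0) (hfz : f z ≤ f x) (hzx : z ≠ x) :
    ∀ y ∈ T ∪ S₂, y ∈ convexHull ℝ ({a, b, c, d} : Set Pt) →
      (y = a ∨ y = b ∨ y = c ∨ y = d) ∨ (f y ≤ f x ∧ y ≠ x) := by
  intro y hy hmem
  rw [Finset.mem_union] at hy
  rcases hy with hy | hy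
  · rcases hT y hy with rfl | rfl
    · exact Or.inr ⟨hfz, hzx⟩
    · exact absurd (quad_ge hQ hmem) (not_le.2 hz')
  · exact Or.inl (hE y hy hmem)

/-- a new point in two quadrangles with a common edge `c p`, on different sides -/
lemma no_common_edge {M B T : Finset Pt} {p : Pt} (hp : p ∉ M ∪ B)
    (hdis : Disjoint T (insert p (M ∪ B))) (hG : GenPos (T ∪ insert p (M ∪ B)))
    {a b a' b' c : Pt} (hc : c ∈ M) {σ : ℝ} (hσ : σ ≠ 0) (Q : Quad σ a b c p) (Q' : Quad (-σ) a' b' c p) :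
    ∀ z ∈ T, z ∈ convexHull ℝ ({a, b, c, p} : Set Pt) → z ∉ convexHull ℝ ({a', b', c, p} : Set Pt) := by
  intro z hz h1 h2
  have k1 := quad_ge Q h1
  have k2 := quad_ge Q' h2
  have k3 : σ * det c p z = 0 := by linarith
  have k4 : det c p z = 0 := (mul_eq_zero.1 k3).resolve_left hσ
  have hcS : c ∈ insert p (M ∪ B) := Finset.mem_insert_of_mem (Finset.mem_union_left B hc)
  have hpS : p ∈ insert p (M ∪ B) := Finset.mem_insert_self _ _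
  refine hG.det_ne (Finset.mem_union_right _ hcS) (Finset.mem_union_right _ hpS) (Finset.mem_union_left _ hz)
    ?_ ?_ ?_ k4
  · rintro rfl; exact hp (Finset.mem_union_left B hc)
  · rintro rfl; exact Finset.disjoint_left.1 hdis hz hcS
  · rintro rfl; exact Finset.disjoint_left.1 hdis hz hpS

/-- a new point in two quadrangles which are separated at `p` by the functional `f` -/
lemma no_common_sep {S T : Finset Pt} {p : Pt} (hdis : Disjoint T (insert p S))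
    {a b c a' b' c' : Pt} (f : Pt →L[ℝ] ℝ) (fa : f p < f a) (fb : f p < f b) (fc : f p < f c)
    (fa' : f a' < f p) (fb' : f b' < f p) (fc' : f c' < f p) :
    ∀ z ∈ T, z ∈ convexHull ℝ ({a, b, c, p} : Set Pt) → z ∉ convexHull ℝ ({a', b', c', p} : Set Pt) := by
  intro z hz h1 h2
  have e3 : ({a, b, c, p} : Set Pt) = insert p {a, b, c} := by ext w; simp; tauto
  rw [e3] at h1
  have k : f z ≤ f p := by
    refine lf_le f ?_ h2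
    intro v hv
    simp only [mem_insert_iff, mem_singleton_iff] at hv
    rcases hv with rfl | rfl | rfl | rfl
    · exact fa'.le
    · exact fb'.le
    · exact fc'.le
    · exact le_rfl
  have := lf_strict f (V := {a, b, c}) ?_ h1 k
  · rw [this] at hz
    exact Finset.disjoint_left.1 hdis hz (Finset.mem_insert_self _ _)
  · intro v hv
    simp only [mem_insert_iff, mem_singleton_iff] at hv
    rcases hv with rfl | rfl | rfl <;> assumption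

lemma stageP {M B S₂ T : Finset Pt} (hMB : M ∪ B = T ∪ S₂) (hG : GenPos (M ∪ B)) (hT : T.card = 2)
    (hdis : Disjoint T S₂) (hMS : M ⊆ S₂) {c₁ c₂ : Pt} (hc₁ : c₁ ∈ M) (hc₂ : c₂ ∈ M) (hcc : c₁ ≠ c₂)
    {e₁ e₂ e₃ e₄ : Pt × Pt} (h₁ : e₁.1 ∈ M ∧ e₁.2 ∈ M ∧ e₁.1 ≠ e₁.2)
    (h₂ : e₂.1 ∈ M ∧ e₂.2 ∈ M ∧ e₂.1 ≠ e₂.2) (h₃ : e₃.1 ∈ M ∧ e₃.2 ∈ M ∧ e₃.1 ≠ e₃.2)
    (h₄ : e₄.1 ∈ M ∧ e₄.2 ∈ M ∧ e₄.1 ≠ e₄.2)
    (Q₁ : Quad 1 e₁.1 e₁.2 c₁ c₂) (Q₂ : Quad 1 e₂.1 e₂.2 c₁ c₂) (Q₃ : Quad (-1) e₃.1 e₃.2 c₁ c₂)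
    (Q₄ : Quad (-1) e₄.1 e₄.2 c₁ c₂)
    (E₁ : Empt S₂ e₁.1 e₁.2 c₁ c₂) (E₂ : Empt S₂ e₂.1 e₂.2 c₁ c₂) (E₃ : Empt S₂ e₃.1 e₃.2 c₁ c₂)
    (E₄ : Empt S₂ e₄.1 e₄.2 c₁ c₂) (f g : Pt →L[ℝ] ℝ)
    (f₁ : f c₁ < f e₁.1 ∧ f c₁ < f e₁.2) (f₂ : f e₂.1 < f c₂ ∧ f e₂.2 < f c₂)
    (f₃ : f e₃.1 < f c₂ ∧ f e₃.2 < f c₂) (fc : f c₂ < f c₁)
    (g₂ : g c₂ < g e₂.1 ∧ g c₂ < g e₂.2) (g₃ : g c₂ < g e₃.1 ∧ g c₂ < g e₃.2)
    (g₄ : g e₄.1 < g c₁ ∧ g e₄.2 < g c₁) (gc : g c₁ < g c₂) : MakerWinsIn 2 5 2 M B := by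
  classical
  -- if one of the four quadrangles is not hit
  have unhit : ∀ (e : Pt × Pt) (σ : ℝ), σ ≠ 0 → (e.1 ∈ M ∧ e.2 ∈ M ∧ e.1 ≠ e.2) → Quad σ e.1 e.2 c₁ c₂ →
      Empt S₂ e.1 e.2 c₁ c₂ → (¬ ∃ z ∈ T, z ∈ convexHull ℝ ({e.1, e.2, c₁, c₂} : Set Pt)) →
      MakerWinsIn 2 5 2 M B := by
    intro e σ hσ he hQ hE hno
    refine win1 hG hσ he.1 he.2.1 hc₁ hc₂ he.2.2 hcc hQ ?_
    intro y hy hmem
    rw [hMB, Finset.mem_union] at hy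
    rcases hy with hy | hy
    · exact absurd ⟨y, hy, hmem⟩ hno
    · exact hE y hy hmem
  by_cases n₁ : ∃ z ∈ T, z ∈ convexHull ℝ ({e₁.1, e₁.2, c₁, c₂} : Set Pt)
  swap
  · exact unhit e₁ 1 one_ne_zero h₁ Q₁ E₁ n₁
  by_cases n₂ : ∃ z ∈ T, z ∈ convexHull ℝ ({e₂.1, e₂.2, c₁, c₂} : Set Pt)
  swap
  · exact unhit e₂ 1 one_ne_zero h₂ Q₂ E₂ n₂
  by_cases n₃ : ∃ z ∈ T, z ∈ convexHull ℝ ({e₃.1, e₃.2, c₁, c₂} : Set Pt)
  swap
  · exact unhit e₃ (-1) (by norm_num) h₃ Q₃ E₃ n₃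
  by_cases n₄ : ∃ z ∈ T, z ∈ convexHull ℝ ({e₄.1, e₄.2, c₁, c₂} : Set Pt)
  swap
  · exact unhit e₄ (-1) (by norm_num) h₄ Q₄ E₄ n₄
  obtain ⟨z₁, hz₁T, hz₁⟩ := n₁
  obtain ⟨z₂, hz₂T, hz₂⟩ := n₂
  obtain ⟨z₃, hz₃T, hz₃⟩ := n₃
  obtain ⟨z₄, hz₄T, hz₄⟩ := n₄
  have hc₁S : c₁ ∈ S₂ := hMS hc₁
  have hc₂S : c₂ ∈ S₂ := hMS hc₂
  have hTc₁ : ∀ z ∈ T, z ≠ c₁ := by rintro z hz rfl; exact Finset.disjoint_left.1 hdis hz hc₁S
  have hTc₂ : ∀ z ∈ T, z ≠ c₂ := by rintro z hz rfl; exact Finset.disjoint_left.1 hdis hz hc₂S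
  have hdet : ∀ z ∈ T, det c₁ c₂ z ≠ 0 := by
    intro z hz
    refine hG.det_ne (Finset.mem_union_left B hc₁) (Finset.mem_union_left B hc₂) ?_ hcc
      (hTc₁ z hz).symm (hTc₂ z hz).symm
    rw [hMB]; exact Finset.mem_union_left _ hz
  have k₁ := quad_ge Q₁ hz₁
  have k₂ := quad_ge Q₂ hz₂
  have k₃ := quad_ge Q₃ hz₃
  have k₄ := quad_ge Q₄ hz₄
  have s₁ : 0 < det c₁ c₂ z₁ := lt_of_le_of_ne (by linarith) (hdet z₁ hz₁T).symm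
  have s₂ : 0 < det c₁ c₂ z₂ := lt_of_le_of_ne (by linarith) (hdet z₂ hz₂T).symm
  have s₃ : det c₁ c₂ z₃ < 0 := lt_of_le_of_ne (by linarith) (hdet z₃ hz₃T)
  have s₄ : det c₁ c₂ z₄ < 0 := lt_of_le_of_ne (by linarith) (hdet z₄ hz₄T)
  have hz13 : z₁ ≠ z₃ := by rintro rfl; linarith
  have hTe : T = {z₁, z₃} := by
    symm
    apply Finset.eq_of_subset_of_card_le
    · intro w hw
      simp only [Finset.mem_insert, Finset.mem_singleton] at hw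
      rcases hw with rfl | rfl <;> assumption
    · rw [hT, Finset.card_pair hz13]
  have hTm : ∀ y ∈ T, y = z₁ ∨ y = z₃ := by
    intro y hy; rw [hTe] at hy; simpa using hy
  have e21 : z₂ = z₁ := by
    rcases hTm z₂ hz₂T with h | h
    · exact h
    · exfalso; rw [h] at s₂; linarith
  have e43 : z₄ = z₃ := by
    rcases hTm z₄ hz₄T with h | h
    · exfalso; rw [h] at s₄; linarith
    · exact h
  subst e21
  subst e43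
  -- now `z₂` is the left point and `z₄` the right point
  have hTm' : ∀ y ∈ T, y = z₄ ∨ y = z₂ := fun y hy => (hTm y hy).symm
  -- the values of `f` and `g`
  have r1 : f c₂ < f z₂ := by
    by_contra hcon
    push Not at hcon
    have e3 : ({e₁.1, e₁.2, c₁, c₂} : Set Pt) = insert c₂ {e₁.1, e₁.2, c₁} := by ext w; simp; tauto
    rw [e3] at hz₁
    refine hTc₂ z₂ hz₂T (lf_strict f ?_ hz₁ hcon)
    intro v hv
    simp only [mem_insert_iff, mem_singleton_iff] at hv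
    rcases hv with rfl | rfl | rfl
    · exact fc.trans f₁.1
    · exact fc.trans f₁.2
    · exact fc
  have r2 : f z₂ < f c₁ := by
    by_contra hcon
    push Not at hcon
    have e3 : ({e₂.1, e₂.2, c₁, c₂} : Set Pt) = insert c₁ {e₂.1, e₂.2, c₂} := by ext w; simp; tauto
    rw [e3] at hz₂
    refine hTc₁ z₂ hz₂T (lf_strict (-f) ?_ hz₂ (by simpa using hcon))
    intro v hv
    simp only [mem_insert_iff, mem_singleton_iff] at hv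
    simp only [ContinuousLinearMap.neg_apply, neg_lt_neg_iff]
    rcases hv with rfl | rfl | rfl
    · exact f₂.1.trans fc
    · exact f₂.2.trans fc
    · exact fc
  -- the point `x`
  set t : ℝ := (f c₁ - f z₂) / (f c₁ - f c₂) with ht
  have hD : 0 < f c₁ - f c₂ := by linarith
  have ht0 : 0 < t := div_pos (by linarith) hD
  have ht1 : t < 1 := by rw [ht, div_lt_one hD]; linarith
  set x : Pt := c₁ + t • (c₂ - c₁) with hx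
  have hx' : x = c₂ + (1 - t) • (c₁ - c₂) := by rw [hx]; module
  have ht0' : 0 < 1 - t := by linarith
  have ht1' : 1 - t < 1 := by linarith
  have hfx : f x = f z₂ := by
    have : f x = f c₁ - t * (f c₁ - f c₂) := by
      rw [hx]; simp only [map_add, map_smul, map_sub, smul_eq_mul]; ring
    rw [this, ht, div_mul_cancel₀ _ hD.ne']; ring
  have hgx : g x = g c₁ + t * (g c₂ - g c₁) := by
    rw [hx]; simp only [map_add, map_smul, map_sub, smul_eq_mul]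
  have hgx1 : g c₁ < g x := by
    rw [hgx]; have := mul_pos ht0 (sub_pos.2 gc); linarith
  have hgx2 : g x < g c₂ := by
    rw [hgx]; have := mul_pos ht0' (sub_pos.2 gc); nlinarith
  have hdx : det c₁ c₂ x = 0 := by
    rw [hx]; unfold det
    simp only [Prod.fst_add, Prod.snd_add, Prod.smul_fst, Prod.smul_snd, Prod.fst_sub, Prod.snd_sub, smul_eq_mul]
    ring
  have hzx : z₂ ≠ x := by rintro h; rw [h, hdx] at s₂; exact lt_irrefl _ s₂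
  have hzx' : z₄ ≠ x := by rintro h; rw [h, hdx] at s₄; exact lt_irrefl _ s₄
  have N₁ := near ht0 ht1 hx hcc Q₁ f (by rw [hfx]; exact r2.trans f₁.1) (by rw [hfx]; exact r2.trans f₁.2)
    (by rw [hfx]; exact r2) (S := T ∪ S₂) (hE_of Q₁ E₁ hTm (by linarith) hfx.ge hzx)
  have E₂' : Empt S₂ e₂.1 e₂.2 c₂ c₁ := by
    intro y hy hmem
    have e1 : ({e₂.1, e₂.2, c₂, c₁} : Set Pt) = {e₂.1, e₂.2, c₁, c₂} := by ext z; simp; tauto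
    rw [e1] at hmem
    have := E₂ y hy hmem
    tauto
  have E₃' : Empt S₂ e₃.1 e₃.2 c₂ c₁ := by
    intro y hy hmem
    have e1 : ({e₃.1, e₃.2, c₂, c₁} : Set Pt) = {e₃.1, e₃.2, c₁, c₂} := by ext z; simp; tauto
    rw [e1] at hmem
    have := E₃ y hy hmem
    tauto
  have N₂ := near ht0' ht1' hx' hcc.symm Q₂.swap (-f)
    (by simp only [ContinuousLinearMap.neg_apply, neg_lt_neg_iff]; rw [hfx]; exact f₂.1.trans r1)
    (by simp only [ContinuousLinearMap.neg_apply, neg_lt_neg_iff]; rw [hfx]; exact f₂.2.trans r1)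
    (by simp only [ContinuousLinearMap.neg_apply, neg_lt_neg_iff]; rw [hfx]; exact r1)
    (S := T ∪ S₂) (hE_of Q₂.swap E₂' hTm (by rw [det_swap]; linarith)
      (by simp only [ContinuousLinearMap.neg_apply, neg_le_neg_iff]; exact hfx.le) hzx)
  have N₀ : ∀ᶠ p in 𝓝 x, g p < g c₂ := (g.continuous.tendsto x).eventually_lt_const hgx2
  rcases le_total (g z₄) (g x) with hcase | hcase
  · -- case A
    have N₃ := near ht0' ht1' hx' hcc.symm Q₃.swap g (hgx2.trans g₃.1) (hgx2.trans g₃.2) hgx2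
      (S := T ∪ S₂) (hE_of Q₃.swap E₃' hTm' (by rw [det_swap]; linarith) hcase hzx')
    obtain ⟨U, hUs, hUo, hxU⟩ := mem_nhds_iff.1 (N₁.and (N₂.and N₃))
    refine mw_step hG U hUo ⟨x, hxU⟩ ?_
    intro p hpU hpS _ T' hT' hdis' hG'
    obtain ⟨⟨q₁, u₁, v₁⟩, ⟨q₂, u₂, v₂⟩, ⟨q₃, u₃, v₃⟩⟩ := hUs hpU
    rw [← hMB] at u₁ u₂ u₃
    simp only [ContinuousLinearMap.neg_apply, neg_lt_neg_iff] at v₂
    refine stageQ hpS hT' hG' one_ne_zero (by norm_num) (by norm_num) h₁ h₂ h₃ hc₁ hc₂ hc₂ q₁ q₂ q₃ u₁ u₂ u₃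
      ?_ ?_ ?_
    · exact no_common_sep hdis' f v₁.1 v₁.2.1 v₁.2.2 v₂.1 v₂.2.1 v₂.2.2
    · exact no_common_sep hdis' f v₁.1 v₁.2.1 v₁.2.2 (f₃.1.trans v₂.2.2) (f₃.2.trans v₂.2.2) v₂.2.2
    · exact no_common_edge hpS hdis' hG' hc₂ (by norm_num) q₂ q₃
  · -- case B
    have N₃ := near ht0 ht1 hx hcc Q₄ (-g)
      (by simp only [ContinuousLinearMap.neg_apply, neg_lt_neg_iff]; exact g₄.1.trans hgx1)
      (by simp only [ContinuousLinearMap.neg_apply, neg_lt_neg_iff]; exact g₄.2.trans hgx1)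
      (by simp only [ContinuousLinearMap.neg_apply, neg_lt_neg_iff]; exact hgx1)
      (S := T ∪ S₂) (hE_of Q₄ E₄ hTm' (by linarith)
        (by simp only [ContinuousLinearMap.neg_apply, neg_le_neg_iff]; exact hcase) hzx')
    obtain ⟨U, hUs, hUo, hxU⟩ := mem_nhds_iff.1 (N₁.and (N₂.and (N₃.and N₀)))
    refine mw_step hG U hUo ⟨x, hxU⟩ ?_
    intro p hpU hpS _ T' hT' hdis' hG'
    obtain ⟨⟨q₁, u₁, v₁⟩, ⟨q₂, u₂, v₂⟩, ⟨q₃, u₃, v₃⟩, v₀⟩ := hUs hpU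
    have v₀' : g p < g c₂ := v₀
    rw [← hMB] at u₁ u₂ u₃
    simp only [ContinuousLinearMap.neg_apply, neg_lt_neg_iff] at v₂ v₃
    refine stageQ hpS hT' hG' one_ne_zero (by norm_num) (by norm_num) h₁ h₂ h₄ hc₁ hc₂ hc₁ q₁ q₂ q₃ u₁ u₂ u₃
      ?_ ?_ ?_
    · exact no_common_sep hdis' f v₁.1 v₁.2.1 v₁.2.2 v₂.1 v₂.2.1 v₂.2.2
    · exact no_common_edge hpS hdis' hG' hc₁ (by norm_num) q₁ q₃
    · exact no_common_sep hdis' g (v₀'.trans g₂.1) (v₀'.trans g₂.2) v₀' v₃.1 v₃.2.1 v₃.2.2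

end Pool.Agent.V5helper40.FH
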