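import Pool.Agent.V5helper40.FH.End1

set_option autoImplicit false

namespace Pool.Agent.V5helper40.FH

open Set Filter Topology
open Pool.Agent.Results.MP_f5afab_co.FourHolesEverySpeed

/-- the triangle of the pair `e` and of `c` is empty -/
def Tri (M B : Finset Pt) (c : Pt) (e : Pt × Pt) : Prop :=
  e.1 ∈ M ∧ e.2 ∈ M ∧ e.1 ≠ e.2 ∧ e.1 ≠ c ∧ e.2 ≠ c ∧
    ∀ y ∈ M ∪ B, y ∈ convexHull ℝ ({e.1, e.2, c} : Set Pt) → y = e.1 ∨ y = e.2 ∨ y = c

lemma not_mem_seg {S : Finset Pt} (hG : GenPos S) {a b c : Pt} (ha : a ∈ S) (hb : b ∈ S) (hc : c ∈ S)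
    (hab : a ≠ b) (hac : a ≠ c) (hbc : b ≠ c) : a ∉ convexHull ℝ ({b, c} : Set Pt) := by
  intro hmem
  have h1 : (0:ℝ) ≤ det b c a := by
    refine hull_ge (T := _) ?_ hmem
    intro z hz
    simp only [mem_insert_iff, mem_singleton_iff] at hz
    rcases hz with rfl | rfl
    · rw [det_self₁]
    · rw [det_self₂]
  have h2 : det b c a ≤ 0 := by
    refine hull_le (T := _) ?_ hmem
    intro z hz
    simp only [mem_insert_iff, mem_singleton_iff] at hz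
    rcases hz with rfl | rfl
    · rw [det_self₁]
    · rw [det_self₂]
  exact hG.det_ne hb hc ha hbc hab.symm hac.symm (le_antisymm h2 h1)

lemma nearC {M B : Finset Pt} (hG : GenPos (M ∪ B)) {c : Pt} (hc : c ∈ M) {e : Pt × Pt} (he : Tri M B c e) :
    ∀ᶠ q in 𝓝 c, e.1 ∉ convexHull ℝ ({e.2, c, q} : Set Pt) ∧ e.2 ∉ convexHull ℝ ({e.1, c, q} : Set Pt) ∧
      ∀ y ∈ M ∪ B, y ∈ convexHull ℝ ({e.1, e.2, c, q} : Set Pt) → y = e.1 ∨ y = e.2 ∨ y = c := by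
  obtain ⟨h1, h2, h3, h4, h5, h6⟩ := he
  have hc' := Finset.mem_union_left B hc
  have h1' := Finset.mem_union_left B h1
  have h2' := Finset.mem_union_left B h2
  have v3 : ∀ᶠ q in 𝓝 c, e.1 ∉ convexHull ℝ (insert q ({e.2, c} : Set Pt)) := by
    apply open_hull (by simp)
    have e1 : (insert c ({e.2, c} : Set Pt)) = {e.2, c} := by ext z; simp
    rw [e1]
    exact not_mem_seg hG h1' h2' hc' h3 h4 h5
  have v4 : ∀ᶠ q in 𝓝 c, e.2 ∉ convexHull ℝ (insert q ({e.1, c} : Set Pt)) := by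
    apply open_hull (by simp)
    have e1 : (insert c ({e.1, c} : Set Pt)) = {e.1, c} := by ext z; simp
    rw [e1]
    exact not_mem_seg hG h2' h1' hc' h3.symm h5 h4
  have v5 : ∀ᶠ q in 𝓝 c, ∀ y ∈ M ∪ B, ¬ (y = e.1 ∨ y = e.2 ∨ y = c) →
      y ∉ convexHull ℝ (insert q ({e.1, e.2, c} : Set Pt)) := by
    rw [Filter.eventually_all_finset]
    intro y hy
    by_cases hyv : y = e.1 ∨ y = e.2 ∨ y = c
    · exact Filter.Eventually.of_forall fun p h => absurd hyv h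
    · have : y ∉ convexHull ℝ (insert c ({e.1, e.2, c} : Set Pt)) := by
        have e1 : (insert c ({e.1, e.2, c} : Set Pt)) = {e.1, e.2, c} := by ext z; simp
        rw [e1]
        exact fun h => hyv (h6 y hy h)
      filter_upwards [open_hull (by simp) this] with p hp _
      exact hp
  filter_upwards [v3, v4, v5] with q w3 w4 w5
  have e1 : (insert q ({e.2, c} : Set Pt)) = {e.2, c, q} := by ext z; simp; tauto
  have e2 : (insert q ({e.1, c} : Set Pt)) = {e.1, c, q} := by ext z; simp; tauto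
  have e3 : (insert q ({e.1, e.2, c} : Set Pt)) = {e.1, e.2, c, q} := by ext z; simp; tauto
  rw [e1] at w3
  rw [e2] at w4
  rw [e3] at w5
  refine ⟨w3, w4, ?_⟩
  intro y hy hmem
  by_contra hcon
  exact w5 y hy hcon hmem

lemma empt_insert {M B : Finset Pt} {c q : Pt} {e : Pt × Pt}
    (h : ∀ y ∈ M ∪ B, y ∈ convexHull ℝ ({e.1, e.2, c, q} : Set Pt) → y = e.1 ∨ y = e.2 ∨ y = c) :
    Empt (insert q (M ∪ B)) e.1 e.2 c q := by
  intro y hy hmem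
  rw [Finset.mem_insert] at hy
  rcases hy with rfl | hy
  · exact Or.inr (Or.inr (Or.inr rfl))
  · have := h y hy hmem
    tauto

lemma stageC {M B : Finset Pt} (hG : GenPos (M ∪ B)) {c₁ : Pt} (hc₁ : c₁ ∈ M) {e₁ e₂ e₃ e₄ : Pt × Pt}
    (t₁ : Tri M B c₁ e₁) (t₂ : Tri M B c₁ e₂) (t₃ : Tri M B c₁ e₃) (t₄ : Tri M B c₁ e₄)
    {τ τ' τ'' : ℝ} (hτ : τ < τ') (hτ' : τ' < τ'')
    (f₁ : hh τ c₁ < hh τ e₁.1 ∧ hh τ c₁ < hh τ e₁.2) (f₂ : hh τ e₂.1 < hh τ c₁ ∧ hh τ e₂.2 < hh τ c₁)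
    (f₃ : hh τ e₃.1 < hh τ c₁ ∧ hh τ e₃.2 < hh τ c₁)
    (g₂ : hh τ'' c₁ < hh τ'' e₂.1 ∧ hh τ'' c₁ < hh τ'' e₂.2)
    (g₃ : hh τ'' c₁ < hh τ'' e₃.1 ∧ hh τ'' c₁ < hh τ'' e₃.2)
    (g₄ : hh τ'' e₄.1 < hh τ'' c₁ ∧ hh τ'' e₄.2 < hh τ'' c₁)
    (k₁ : hh τ' c₁ < hh τ' e₁.1 ∧ hh τ' c₁ < hh τ' e₁.2) (k₂ : hh τ' c₁ < hh τ' e₂.1 ∧ hh τ' c₁ < hh τ' e₂.2)
    (k₃ : hh τ' e₃.1 < hh τ' c₁ ∧ hh τ' e₃.2 < hh τ' c₁) (k₄ : hh τ' e₄.1 < hh τ' c₁ ∧ hh τ' e₄.2 < hh τ' c₁) :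
    MakerWinsIn 2 5 3 M B := by
  classical
  have N₁ := nearC hG hc₁ t₁
  have N₂ := nearC hG hc₁ t₂
  have N₃ := nearC hG hc₁ t₃
  have N₄ := nearC hG hc₁ t₄
  have hcf := (hh τ).continuous.tendsto c₁
  have hcg := (hh τ'').continuous.tendsto c₁
  have F₂ := (hcf.eventually_const_lt f₂.1).and (hcf.eventually_const_lt f₂.2)
  have F₃ := (hcf.eventually_const_lt f₃.1).and (hcf.eventually_const_lt f₃.2)
  have G₂ := (hcg.eventually_lt_const g₂.1).and (hcg.eventually_lt_const g₂.2)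
  have G₃ := (hcg.eventually_lt_const g₃.1).and (hcg.eventually_lt_const g₃.2)
  obtain ⟨W, hWs, hWo, hcW⟩ := mem_nhds_iff.1
    ((N₁.and (N₂.and (N₃.and N₄))).and ((F₂.and F₃).and (G₂.and G₃)))
  -- the directions
  set v : Pt := (τ', 1) with hv
  have hdet : ∀ (ε : ℝ) (z : Pt), det c₁ (c₁ + ε • v) z = ε * (hh τ' z - hh τ' c₁) := by
    intro ε z
    rw [hh_apply, hh_apply, hv]; unfold det
    simp only [Prod.fst_add, Prod.snd_add, Prod.smul_mk, smul_eq_mul]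
    ring
  have hfv : ∀ (ε τ : ℝ), hh τ (c₁ + ε • v) = hh τ c₁ + ε * (τ - τ') := by
    intro ε τ
    rw [hh_apply, hh_apply, hv]
    simp only [Prod.fst_add, Prod.snd_add, Prod.smul_mk, smul_eq_mul]
    ring
  have hdc : ∀ z : Pt, Continuous (fun q => det c₁ q z) := by
    intro z; unfold det; fun_prop
  set D : Set Pt := ({q | 0 < det c₁ q e₁.1} ∩ {q | 0 < det c₁ q e₁.2}) ∩
    ({q | 0 < det c₁ q e₂.1} ∩ {q | 0 < det c₁ q e₂.2}) ∩
    (({q | det c₁ q e₃.1 < 0} ∩ {q | det c₁ q e₃.2 < 0}) ∩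
    ({q | det c₁ q e₄.1 < 0} ∩ {q | det c₁ q e₄.2 < 0})) ∩
    ({q | hh τ q < hh τ c₁} ∩ {q | hh τ'' c₁ < hh τ'' q}) with hD
  have hDo : IsOpen D := by
    refine ((((?_ : IsOpen _).inter ?_).inter (IsOpen.inter ?_ ?_)).inter
      (IsOpen.inter (IsOpen.inter ?_ ?_) (IsOpen.inter ?_ ?_))).inter (IsOpen.inter ?_ ?_)
    · exact isOpen_lt continuous_const (hdc _)
    · exact isOpen_lt continuous_const (hdc _)
    · exact isOpen_lt continuous_const (hdc _)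
    · exact isOpen_lt continuous_const (hdc _)
    · exact isOpen_lt (hdc _) continuous_const
    · exact isOpen_lt (hdc _) continuous_const
    · exact isOpen_lt (hdc _) continuous_const
    · exact isOpen_lt (hdc _) continuous_const
    · exact isOpen_lt (hh τ).continuous continuous_const
    · exact isOpen_lt continuous_const (hh τ'').continuous
  have hne : (W ∩ D).Nonempty := by
    have hcont : Continuous (fun ε : ℝ => c₁ + ε • v) := by fun_prop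
    have h3 : ∀ᶠ ε in 𝓝 (0:ℝ), c₁ + ε • v ∈ W := by
      apply hcont.continuousAt.eventually
      simpa using hWo.mem_nhds hcW
    have h4 : ∀ᶠ ε in 𝓝[>] (0:ℝ), c₁ + ε • v ∈ W := h3.filter_mono nhdsWithin_le_nhds
    obtain ⟨ε, hε1, hε2⟩ := (h4.and self_mem_nhdsWithin).exists
    have hε : (0:ℝ) < ε := hε2
    have hpos : ∀ z, hh τ' c₁ < hh τ' z → 0 < det c₁ (c₁ + ε • v) z := by
      intro z hz; rw [hdet]; exact mul_pos hε (sub_pos.2 hz)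
    have hneg : ∀ z, hh τ' z < hh τ' c₁ → det c₁ (c₁ + ε • v) z < 0 := by
      intro z hz; rw [hdet]; exact mul_neg_of_pos_of_neg hε (sub_neg.2 hz)
    refine ⟨c₁ + ε • v, hε1, ⟨⟨⟨⟨hpos _ k₁.1, hpos _ k₁.2⟩, ⟨hpos _ k₂.1, hpos _ k₂.2⟩⟩,
      ⟨⟨hneg _ k₃.1, hneg _ k₃.2⟩, ⟨hneg _ k₄.1, hneg _ k₄.2⟩⟩⟩, ⟨?_, ?_⟩⟩⟩
    · show hh τ (c₁ + ε • v) < hh τ c₁
      rw [hfv]
      have := mul_pos hε (sub_pos.2 hτ)
      linarith
    · show hh τ'' c₁ < hh τ'' (c₁ + ε • v)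
      rw [hfv]
      have := mul_pos hε (sub_pos.2 hτ')
      linarith
  refine mw_step hG (W ∩ D) (hWo.inter hDo) hne ?_
  intro q hqU hqS _ T hT hdis hG'
  obtain ⟨hqW, ⟨⟨⟨⟨d1, d2⟩, ⟨d3, d4⟩⟩, ⟨⟨d5, d6⟩, ⟨d7, d8⟩⟩⟩, ⟨d9, d10⟩⟩⟩ := hqU
  obtain ⟨⟨⟨n1, n1', n1''⟩, ⟨n2, n2', n2''⟩, ⟨n3, n3', n3''⟩, ⟨n4, n4', n4''⟩⟩, ⟨⟨u2, u3⟩, ⟨w2, w3⟩⟩⟩ := hWs hqW
  change 0 < det c₁ q e₁.1 at d1
  change 0 < det c₁ q e₁.2 at d2
  change 0 < det c₁ q e₂.1 at d3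
  change 0 < det c₁ q e₂.2 at d4
  change det c₁ q e₃.1 < 0 at d5
  change det c₁ q e₃.2 < 0 at d6
  change det c₁ q e₄.1 < 0 at d7
  change det c₁ q e₄.2 < 0 at d8
  change hh τ q < hh τ c₁ at d9
  change hh τ'' c₁ < hh τ'' q at d10
  have hcq : c₁ ≠ q := by rintro rfl; exact lt_irrefl _ d9
  have hM : ∀ e : Pt × Pt, Tri M B c₁ e → e.1 ∈ insert q M ∧ e.2 ∈ insert q M ∧ e.1 ≠ e.2 := fun e he =>
    ⟨Finset.mem_insert_of_mem he.1, Finset.mem_insert_of_mem he.2.1, he.2.2.1⟩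
  refine stageP (M := insert q M) (B := T ∪ B) (S₂ := insert q (M ∪ B)) (T := T) (union_eq M B T q)
    (by rw [union_eq]; exact hG') hT hdis (Finset.insert_subset_insert q Finset.subset_union_left)
    (Finset.mem_insert_of_mem hc₁) (Finset.mem_insert_self _ _) hcq
    (hM _ t₁) (hM _ t₂) (hM _ t₃) (hM _ t₄)
    ⟨by linarith, by linarith, n1, n1'⟩ ⟨by linarith, by linarith, n2, n2'⟩
    ⟨by linarith, by linarith, n3, n3'⟩ ⟨by linarith, by linarith, n4, n4'⟩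
    (empt_insert n1'') (empt_insert n2'') (empt_insert n3'') (empt_insert n4'') (hh τ) (hh τ'')
    f₁ u2 u3 d9 w2 w3 g₄ d10

/-- four elements in increasing order -/
lemma sort4 {α : Type} [DecidableEq α] (A : Finset α) (σ : α → ℝ) (hσ : Set.InjOn σ A) (h : 4 ≤ A.card) :
    ∃ e₁ ∈ A, ∃ e₂ ∈ A, ∃ e₃ ∈ A, ∃ e₄ ∈ A, σ e₁ < σ e₂ ∧ σ e₂ < σ e₃ ∧ σ e₃ < σ e₄ := by
  classical
  have hc : (A.image σ).card = A.card := Finset.card_image_of_injOn hσ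
  set g := (A.image σ).orderEmbOfFin hc with hg
  have key : ∀ i : Fin A.card, ∃ e ∈ A, σ e = g i := by
    intro i
    have := Finset.orderEmbOfFin_mem (A.image σ) hc i
    rw [Finset.mem_image] at this
    exact this
  obtain ⟨e₁, h1, k1⟩ := key ⟨0, by omega⟩
  obtain ⟨e₂, h2, k2⟩ := key ⟨1, by omega⟩
  obtain ⟨e₃, h3, k3⟩ := key ⟨2, by omega⟩
  obtain ⟨e₄, h4, k4⟩ := key ⟨3, by omega⟩
  refine ⟨e₁, h1, e₂, h2, e₃, h3, e₄, h4, ?_, ?_, ?_⟩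
  · rw [k1, k2]; exact g.strictMono (by simp [Fin.lt_def])
  · rw [k2, k3]; exact g.strictMono (by simp [Fin.lt_def])
  · rw [k3, k4]; exact g.strictMono (by simp [Fin.lt_def])

/-- the slope of the pair -/
noncomputable def slope (r₀ : Pt) (e : Pt × Pt) : ℝ := (e.1.1 - r₀.1) / (e.1.2 - r₀.2)

lemma side {r₀ : Pt} {e : Pt × Pt} (hup : r₀.2 < e.1.2) {t : ℝ} (ht0 : 0 < t)
    (ht : e.2 = r₀ + t • (e.1 - r₀)) (τ : ℝ) :
    ∀ᶠ c in 𝓝 r₀, (slope r₀ e < τ → hh τ c < hh τ e.1 ∧ hh τ c < hh τ e.2) ∧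
      (τ < slope r₀ e → hh τ e.1 < hh τ c ∧ hh τ e.2 < hh τ c) := by
  have hd : 0 < e.1.2 - r₀.2 := by linarith
  have h1 : hh τ e.1 - hh τ r₀ = (e.1.2 - r₀.2) * (τ - slope r₀ e) := by
    rw [hh_apply, hh_apply]; unfold slope; field_simp; ring
  have h2 : hh τ e.2 - hh τ r₀ = t * ((e.1.2 - r₀.2) * (τ - slope r₀ e)) := by
    rw [← h1, ht, hh_apply, hh_apply, hh_apply]
    simp only [Prod.fst_add, Prod.snd_add, Prod.smul_fst, Prod.smul_snd, Prod.fst_sub, Prod.snd_sub, smul_eq_mul]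
    ring
  have hc := (hh τ).continuous.tendsto r₀
  rcases lt_trichotomy (slope r₀ e) τ with h | h | h
  · have h3 : 0 < (e.1.2 - r₀.2) * (τ - slope r₀ e) := mul_pos hd (by linarith)
    have h4 := mul_pos ht0 h3
    filter_upwards [hc.eventually_lt_const (show hh τ r₀ < hh τ e.1 by linarith),
      hc.eventually_lt_const (show hh τ r₀ < hh τ e.2 by linarith)] with c w1 w2
    exact ⟨fun _ => ⟨w1, w2⟩, fun h' => absurd h' (not_lt.2 h.le)⟩
  · exact Filter.Eventually.of_forall fun c =>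
      ⟨fun h' => absurd h' (by rw [h]; exact lt_irrefl _), fun h' => absurd h' (by rw [h]; exact lt_irrefl _)⟩
  · have h3 : (e.1.2 - r₀.2) * (τ - slope r₀ e) < 0 := mul_neg_of_pos_of_neg hd (by linarith)
    have h4 := mul_neg_of_pos_of_neg ht0 h3
    filter_upwards [hc.eventually_const_lt (show hh τ e.1 < hh τ r₀ by linarith),
      hc.eventually_const_lt (show hh τ e.2 < hh τ r₀ by linarith)] with c w1 w2
    exact ⟨fun h' => absurd h' (not_lt.2 h.le), fun _ => ⟨w1, w2⟩⟩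

lemma stageA {r₀ : Pt} {M B : Finset Pt} (hS : GenPos (M ∪ B)) (A : Finset (Pt × Pt))
    (hcard : A.card = 6) (hA : ∀ e ∈ A, Pair r₀ M (M ∪ B) e) (hup : ∀ e ∈ A, r₀.2 < e.1.2)
    (hdist : ∀ e ∈ A, ∀ e' ∈ A, e ≠ e' → det r₀ e.1 e'.1 ≠ 0) : MakerWinsIn 2 5 4 M B := by
  classical
  have hev := burst (Finset.subset_union_left) A hA hdist
  have hside : ∀ᶠ c in 𝓝 r₀, ∀ e ∈ A, ∀ e' ∈ A, ∀ e'' ∈ A,
      (slope r₀ e'' < (slope r₀ e + slope r₀ e') / 2 →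
        hh ((slope r₀ e + slope r₀ e') / 2) c < hh ((slope r₀ e + slope r₀ e') / 2) e''.1 ∧
        hh ((slope r₀ e + slope r₀ e') / 2) c < hh ((slope r₀ e + slope r₀ e') / 2) e''.2) ∧
      ((slope r₀ e + slope r₀ e') / 2 < slope r₀ e'' →
        hh ((slope r₀ e + slope r₀ e') / 2) e''.1 < hh ((slope r₀ e + slope r₀ e') / 2) c ∧
        hh ((slope r₀ e + slope r₀ e') / 2) e''.2 < hh ((slope r₀ e + slope r₀ e') / 2) c) := by
    rw [Filter.eventually_all_finset]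
    intro e he
    rw [Filter.eventually_all_finset]
    intro e' he'
    rw [Filter.eventually_all_finset]
    intro e'' he''
    obtain ⟨_, _, _, ⟨t, ht0, _, ht⟩, _⟩ := hA e'' he''
    exact side (hup e'' he'') ht0 ht _
  obtain ⟨U, hUs, hUo, hU0⟩ := mem_nhds_iff.1 (hev.and hside)
  refine mw_step hS U hUo ⟨r₀, hU0⟩ ?_
  intro c hcU hcS _ T hT hdisj hG
  obtain ⟨⟨h1, h2⟩, h3⟩ := hUs hcU
  -- the pairs which are still alive
  set A' : Finset (Pt × Pt) := A.filter (fun e => ∀ b ∈ T, b ∉ convexHull ℝ ({e.1, e.2, c} : Set Pt)) with hA'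
  have hdead : (A \ A').card ≤ T.card := by
    have hch : ∀ e : Pt × Pt, ∃ b : Pt, e ∈ A \ A' → b ∈ T ∧ b ∈ convexHull ℝ ({e.1, e.2, c} : Set Pt) := by
      intro e
      by_cases he : e ∈ A \ A'
      · rw [Finset.mem_sdiff, hA', Finset.mem_filter] at he
        have h1 : ¬ ∀ b ∈ T, b ∉ convexHull ℝ ({e.1, e.2, c} : Set Pt) := fun h => he.2 ⟨he.1, h⟩
        push Not at h1
        obtain ⟨b, hb1, hb2⟩ := h1
        exact ⟨b, fun _ => ⟨hb1, hb2⟩⟩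
      · exact ⟨c, fun h => absurd h he⟩
    choose φ hφ using hch
    apply Finset.card_le_card_of_injOn φ
    · intro e he; exact (hφ e he).1
    · intro e he e' he' hfe
      by_contra hne
      have h4 := h2 e (Finset.mem_sdiff.1 he).1 e' (Finset.mem_sdiff.1 he').1 hne (φ e) (hφ e he).2
        (by rw [hfe]; exact (hφ e' he').2)
      have h5 := (hφ e he).1
      rw [h4] at h5
      exact (Finset.disjoint_left.1 hdisj h5) (Finset.mem_insert_self _ _)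
  have hA'card : 4 ≤ A'.card := by
    have h4 : (A \ A').card + A'.card = A.card :=
      Finset.card_sdiff_add_card_eq_card (Finset.filter_subset _ _)
    omega
  have hinj : Set.InjOn (slope r₀) A' := by
    intro e he e' he' hee
    by_contra hne
    have heA : e ∈ A := (Finset.mem_filter.1 he).1
    have heA' : e' ∈ A := (Finset.mem_filter.1 he').1
    apply hdist e heA e' heA' hne
    have u1 : e.1.2 - r₀.2 ≠ 0 := by have := hup e heA; intro h; linarith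
    have u2 : e'.1.2 - r₀.2 ≠ 0 := by have := hup e' heA'; intro h; linarith
    unfold slope at hee
    rw [div_eq_div_iff u1 u2] at hee
    unfold det
    linarith
  obtain ⟨e₁, m₁, e₂, m₂, e₃, m₃, e₄, m₄, o₁, o₂, o₃⟩ := sort4 A' (slope r₀) hinj hA'card
  have tri : ∀ e ∈ A', Tri (insert c M) (T ∪ B) c e := by
    intro e he
    obtain ⟨heA, heT⟩ := Finset.mem_filter.1 he
    obtain ⟨p1, p2, p3, _, _⟩ := hA e heA
    refine ⟨Finset.mem_insert_of_mem p1, Finset.mem_insert_of_mem p2, p3, ?_, ?_, ?_⟩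
    · rintro h; exact hcS (h ▸ Finset.mem_union_left B p1)
    · rintro h; exact hcS (h ▸ Finset.mem_union_left B p2)
    · intro y hy hmem
      rw [union_eq, Finset.mem_union, Finset.mem_insert] at hy
      rcases hy with hy | rfl | hy
      · exact absurd hmem (heT y hy)
      · exact Or.inr (Or.inr rfl)
      · rcases h1 e heA y hy hmem with h | h
        · exact Or.inl h
        · exact Or.inr (Or.inl h)
  have a₁ : e₁ ∈ A := (Finset.mem_filter.1 m₁).1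
  have a₂ : e₂ ∈ A := (Finset.mem_filter.1 m₂).1
  have a₃ : e₃ ∈ A := (Finset.mem_filter.1 m₃).1
  have a₄ : e₄ ∈ A := (Finset.mem_filter.1 m₄).1
  exact stageC (by rw [union_eq]; exact hG) (Finset.mem_insert_self _ _) (tri _ m₁) (tri _ m₂) (tri _ m₃)
    (tri _ m₄) (τ := (slope r₀ e₁ + slope r₀ e₂) / 2) (τ' := (slope r₀ e₂ + slope r₀ e₃) / 2)
    (τ'' := (slope r₀ e₃ + slope r₀ e₄) / 2) (by linarith) (by linarith)
    ((h3 e₁ a₁ e₂ a₂ e₁ a₁).1 (by linarith)) ((h3 e₁ a₁ e₂ a₂ e₂ a₂).2 (by linarith))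
    ((h3 e₁ a₁ e₂ a₂ e₃ a₃).2 (by linarith))
    ((h3 e₃ a₃ e₄ a₄ e₂ a₂).1 (by linarith)) ((h3 e₃ a₃ e₄ a₄ e₃ a₃).1 (by linarith))
    ((h3 e₃ a₃ e₄ a₄ e₄ a₄).2 (by linarith))
    ((h3 e₂ a₂ e₃ a₃ e₁ a₁).1 (by linarith)) ((h3 e₂ a₂ e₃ a₃ e₂ a₂).1 (by linarith))
    ((h3 e₂ a₂ e₃ a₃ e₃ a₃).2 (by linarith)) ((h3 e₂ a₂ e₃ a₃ e₄ a₄).2 (by linarith))

end Pool.Agent.V5helper40.FH
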