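import Pool.Agent.V5helper40.FH.End2

set_option autoImplicit false

namespace Pool.Agent.V5helper40.FH

open Set Filter Topology
open Pool.Agent.Results.MP_f5afab_co.FourHolesEverySpeed

/-- completing the pairs, with a continuation and a property `P` of the outer points -/
lemma phase2g {s k n J : ℕ} {r₀ : Pt} (P : Pt → Prop)
    (fin : ∀ (M B : Finset Pt) (A : Finset (Pt × Pt)), A.card = J → GenPos (M ∪ B) →
      (∀ e ∈ A, Pair r₀ M (M ∪ B) e) → (∀ e ∈ A, P e.1) →
      (∀ e ∈ A, ∀ e' ∈ A, e ≠ e' → det r₀ e.1 e'.1 ≠ 0) → MakerWinsIn s k n M B) :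
    ∀ (j : ℕ) (M B : Finset Pt) (A : Finset (Pt × Pt)) (F : Finset Pt),
    A.card + j = J → GenPos (M ∪ B) → r₀ ∉ M ∪ B → (∀ e ∈ A, Pair r₀ M (M ∪ B) e) → (∀ e ∈ A, P e.1) →
    (∀ e ∈ A, ∀ e' ∈ A, e ≠ e' → det r₀ e.1 e'.1 ≠ 0) → (∀ f ∈ F, Free r₀ M (M ∪ B) f) →
    (∀ f ∈ F, P f) → j * (s + 1) ≤ F.card + s → MakerWinsIn s k (n + j) M B := by
  classical
  intro j
  induction j with
  | zero =>
    intro M B A F h1 h2 _ h4 hP h5 _ _ _
    exact fin M B A (by omega) h2 h4 hP h5
  | succ j ih =>
    intro M B A F hcard hG hr0 hA hAP hdist hF hFP hFc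
    have hFne : F.Nonempty := by
      rw [← Finset.card_pos]
      rw [Nat.succ_mul] at hFc
      omega
    obtain ⟨f, hf⟩ := hFne
    obtain ⟨hfM, hfS⟩ := hF f hf
    have hfS' : f ∈ M ∪ B := Finset.mem_union_left B hfM
    have hfr : f ≠ r₀ := by rintro rfl; exact hr0 hfS'
    -- the new point
    have hbad : ((((M ∪ B) ×ˢ (M ∪ B)).filter fun e => e.1 ≠ e.2) : Set (Pt × Pt)).Finite :=
      Finset.finite_toSet _
    have hgood : ∃ t : ℝ, t ∈ Ioo (0:ℝ) 1 ∧ ∀ x ∈ M ∪ B, ∀ y ∈ M ∪ B, x ≠ y → det x y (r₀ + t • (f - r₀)) ≠ 0 := by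
      set Z : Set ℝ := ⋃ e ∈ ((((M ∪ B) ×ˢ (M ∪ B)).filter fun e => e.1 ≠ e.2) : Set (Pt × Pt)),
        {t : ℝ | det e.1 e.2 (r₀ + t • (f - r₀)) = 0} with hZ
      have hZf : Z.Finite := by
        apply hbad.biUnion
        intro e he
        rw [Finset.mem_coe, Finset.mem_filter, Finset.mem_product] at he
        obtain ⟨⟨he1, he2⟩, hne⟩ := he
        apply Set.Subsingleton.finite
        intro t ht t' ht'
        simp only [mem_ofPred_eq] at ht ht'
        have hlin : ∀ t : ℝ, det e.1 e.2 (r₀ + t • (f - r₀)) = det e.1 e.2 r₀ + t * (det e.1 e.2 f - det e.1 e.2 r₀) := by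
          intro t; unfold det
          simp only [Prod.fst_add, Prod.snd_add, Prod.smul_fst, Prod.smul_snd, Prod.fst_sub, Prod.snd_sub, smul_eq_mul]
          ring
        rw [hlin] at ht ht'
        by_contra htt
        have h1 : (t - t') * (det e.1 e.2 f - det e.1 e.2 r₀) = 0 := by linarith
        rcases mul_eq_zero.1 h1 with h | h
        · exact htt (by linarith)
        · have h2 : det e.1 e.2 r₀ = 0 := by rw [h] at ht; linarith
          have h3 : det e.1 e.2 f = 0 := by linarith
          -- both points are on the line of `f`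
          apply hne
          have k1 : e.1 = f := by
            by_contra hef
            have h4 : det r₀ f e.1 ≠ 0 := fun h => hef (hfS _ he1 h)
            by_cases hef2 : e.2 = f
            · rw [hef2] at h2
              apply h4
              have a1 := det_cyc r₀ f e.1
              have a2 := det_cyc f e.1 r₀
              have a3 := det_swap' e.1 r₀ f
              linarith
            · exact hG.det_ne he1 he2 hfS' hne hef hef2 h3
          rw [k1] at h2
          have h5 : det r₀ f e.2 = 0 := by
            have := det_cyc f e.2 r₀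
            have h6 := det_cyc e.2 r₀ f
            linarith
          rw [k1, hfS _ he2 h5]
      have hinf : (Ioo (0:ℝ) 1 \ Z).Infinite := (Ioo_infinite (by norm_num)).sdiff hZf
      obtain ⟨t, ht, htZ⟩ := hinf.nonempty
      refine ⟨t, ht, ?_⟩
      intro x hx y hy hxy h
      apply htZ
      rw [hZ, mem_iUnion₂]
      exact ⟨(x, y), by
        rw [Finset.mem_coe, Finset.mem_filter, Finset.mem_product]; exact ⟨⟨hx, hy⟩, hxy⟩, h⟩
    obtain ⟨t, ⟨ht0, ht1⟩, htg⟩ := hgood
    set m : Pt := r₀ + t • (f - r₀) with hm
    have hmline : ∀ y, det r₀ m y = t * det r₀ f y := fun y => det_line hm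
    have hmf : m ≠ f := by
      intro h
      have h1 : (1 - t) • (f - r₀) = 0 := by
        have : (1 - t) • (f - r₀) = f - (r₀ + t • (f - r₀)) := by module
        rw [this, ← hm, h, sub_self]
      rcases smul_eq_zero.1 h1 with h2 | h2
      · linarith
      · exact hfr (sub_eq_zero.1 h2)
    have hmr : m ≠ r₀ := by
      intro h
      have h1 : t • (f - r₀) = 0 := by
        have : t • (f - r₀) = (r₀ + t • (f - r₀)) - r₀ := by module
        rw [this, ← hm, h, sub_self]
      rcases smul_eq_zero.1 h1 with h2 | h2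
      · linarith
      · exact hfr (sub_eq_zero.1 h2)
    have hmS : m ∉ M ∪ B := by
      intro h
      apply hmf
      apply hfS m h
      have := hmline f
      rw [det_self₂, mul_zero] at this
      rw [det_swap', this, neg_zero]
    refine ⟨m, hmS, genPos_insert hG htg, Or.inr ?_⟩
    intro T hT hdisj hGT
    have hsub : insert m M ∪ (T ∪ B) = T ∪ insert m (M ∪ B) := by
      ext x; simp only [Finset.mem_union, Finset.mem_insert]; tauto
    have hmS' : m ∈ T ∪ insert m (M ∪ B) := by simp
    have hold : ∀ x ∈ M ∪ B, x ∈ T ∪ insert m (M ∪ B) := fun x hx =>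
      Finset.mem_union_right _ (Finset.mem_insert_of_mem hx)
    have hTn : ∀ x ∈ T, x ∉ insert m (M ∪ B) := fun x hx => Finset.disjoint_left.1 hdisj hx
    have hfm : det r₀ f m = 0 := by
      have := hmline f
      rw [det_self₂, mul_zero] at this
      rw [det_swap', this, neg_zero]
    have hmfline : ∀ x, det f m x = (t - 1) * det r₀ f x := fun x => det_pair hm
    -- `r₀` has not been occupied
    have hr0' : r₀ ∉ T ∪ insert m (M ∪ B) := by
      rw [Finset.mem_union, Finset.mem_insert]
      rintro (h | h | h)
      · refine hGT.det_ne (hold f hfS') hmS' (Finset.mem_union_left _ h) (Ne.symm hmf) hfr hmr ?_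
        rw [hmfline, det_self₁, mul_zero]
      · exact hmr h.symm
      · exact hr0 h
    -- the other points on the line of `f`
    have hfpair : Pair r₀ (insert m M) (T ∪ insert m (M ∪ B)) (f, m) := by
      refine ⟨Finset.mem_insert_of_mem hfM, Finset.mem_insert_self _ _, Ne.symm hmf, ⟨t, ht0, ht1, hm⟩, ?_⟩
      intro x hx hdet
      by_contra hcon
      push Not at hcon
      refine hGT.det_ne (hold f hfS') hmS' hx (Ne.symm hmf) (Ne.symm hcon.1) (Ne.symm hcon.2) ?_
      rw [hmfline]
      simp only at hdet
      rw [hdet, mul_zero]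
    have hApair : ∀ e ∈ A, Pair r₀ (insert m M) (T ∪ insert m (M ∪ B)) e := by
      intro e he
      obtain ⟨p1, p2, p3, ⟨t', ht0', ht1', ht'⟩, p5⟩ := hA e he
      refine ⟨Finset.mem_insert_of_mem p1, Finset.mem_insert_of_mem p2, p3, ⟨t', ht0', ht1', ht'⟩, ?_⟩
      intro x hx hdet
      by_contra hcon
      push Not at hcon
      refine hGT.det_ne (hold _ (Finset.mem_union_left B p1)) (hold _ (Finset.mem_union_left B p2)) hx p3
        (Ne.symm hcon.1) (Ne.symm hcon.2) ?_
      rw [det_pair ht', hdet, mul_zero]
    -- the spoiled lines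
    set F' : Finset Pt := (F.erase f).filter (fun g => ∀ b ∈ T, det r₀ g b ≠ 0) with hF'
    have hF'free : ∀ g ∈ F', Free r₀ (insert m M) (T ∪ insert m (M ∪ B)) g := by
      intro g hg
      rw [hF', Finset.mem_filter, Finset.mem_erase] at hg
      obtain ⟨⟨hgf, hgF⟩, hgT⟩ := hg
      obtain ⟨hgM, hgS⟩ := hF g hgF
      refine ⟨Finset.mem_insert_of_mem hgM, ?_⟩
      intro x hx hdet
      rw [Finset.mem_union, Finset.mem_insert] at hx
      rcases hx with hx | rfl | hx
      · exact absurd hdet (hgT x hx)
      · exfalso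
        -- then `f` is on the line of `g`
        have h1 : det r₀ m g = 0 := by rw [det_swap', hdet, neg_zero]
        rw [hmline] at h1
        rcases mul_eq_zero.1 h1 with h | h
        · linarith
        · apply hgf
          exact hfS g (Finset.mem_union_left B hgM) h
      · exact hgS x hx hdet
    have hF'card : j * (s + 1) ≤ F'.card + s := by
      -- the spoiled points inject into `T`
      have hsp : ((F.erase f) \ F').card ≤ T.card := by
        have hch : ∀ g : Pt, ∃ b : Pt, g ∈ (F.erase f) \ F' → b ∈ T ∧ det r₀ g b = 0 := by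
          intro g
          by_cases hg : g ∈ (F.erase f) \ F'
          · rw [Finset.mem_sdiff, hF', Finset.mem_filter] at hg
            have h1 : ¬ ∀ b ∈ T, det r₀ g b ≠ 0 := fun h => hg.2 ⟨hg.1, h⟩
            push Not at h1
            obtain ⟨b, hb1, hb2⟩ := h1
            exact ⟨b, fun _ => ⟨hb1, hb2⟩⟩
          · exact ⟨g, fun h => absurd h hg⟩
        choose φ hφ using hch
        apply Finset.card_le_card_of_injOn φ
        · intro g hg; exact (hφ g hg).1
        · intro g hg g' hg' hgg
          have h1 := (hφ g hg).2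
          have h2 := (hφ g' hg').2
          rw [← hgg] at h2
          have hgF : g ∈ F := Finset.mem_of_mem_erase (Finset.mem_sdiff.1 hg).1
          have hgF' : g' ∈ F := Finset.mem_of_mem_erase (Finset.mem_sdiff.1 hg').1
          have hbr : φ g ≠ r₀ := by
            intro h
            exact hr0' (Finset.mem_union_left _ (h ▸ (hφ g hg).1))
          -- `g`, `g'` are on the line through `r₀` and `φ g`
          have h3 : det r₀ g g' = 0 := by
            have hne : (φ g).1 - r₀.1 ≠ 0 ∨ (φ g).2 - r₀.2 ≠ 0 := by
              by_contra hcon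
              push Not at hcon
              exact hbr (Prod.ext (by linarith [hcon.1]) (by linarith [hcon.2]))
            unfold det at h1 h2 ⊢
            rcases hne with h | h
            · have : ((φ g).1 - r₀.1) * ((g.1 - r₀.1) * (g'.2 - r₀.2) - (g.2 - r₀.2) * (g'.1 - r₀.1)) = 0 := by
                linear_combination (-(g.1 - r₀.1)) * h2 + (g'.1 - r₀.1) * h1
              rcases mul_eq_zero.1 this with h' | h'
              · exact absurd h' h
              · exact h'
            · have : ((φ g).2 - r₀.2) * ((g.1 - r₀.1) * (g'.2 - r₀.2) - (g.2 - r₀.2) * (g'.1 - r₀.1)) = 0 := by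
                linear_combination (-(g.2 - r₀.2)) * h2 + (g'.2 - r₀.2) * h1
              rcases mul_eq_zero.1 this with h' | h'
              · exact absurd h' h
              · exact h'
          exact ((hF g hgF).2 g' (Finset.mem_union_left B (hF g' hgF').1) h3).symm
      have h1 : (F.erase f).card = F.card - 1 := Finset.card_erase_of_mem hf
      have h2 : F'.card + ((F.erase f) \ F').card = (F.erase f).card := by
        rw [add_comm]; exact Finset.card_sdiff_add_card_eq_card (Finset.filter_subset _ _)
      have h3 : 0 < F.card := Finset.card_pos.2 ⟨f, hf⟩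
      rw [Nat.succ_mul] at hFc
      omega
    have hfA : (f, m) ∉ A := by
      intro h
      exact hmS (Finset.mem_union_left B (hA _ h).2.1)
    have key : ∀ e ∈ A, det r₀ e.1 f ≠ 0 := by
      intro e he h
      obtain ⟨p1, p2, p3, ⟨t', ht0', ht1', ht'⟩, p5⟩ := hA e he
      have h1 : det r₀ f e.1 = 0 := by rw [det_swap', h, neg_zero]
      have h2 := hfS e.1 (Finset.mem_union_left B p1) h1
      have h3 : det r₀ f e.2 = 0 := by
        rw [← h2, det_swap', det_line ht', det_self₂, mul_zero, neg_zero]
      have h4 := hfS e.2 (Finset.mem_union_left B p2) h3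
      exact p3 (h2.trans h4.symm)
    refine ih (insert m M) (T ∪ B) (insert (f, m) A) F' ?_ ?_ ?_ ?_ ?_ ?_ ?_ ?_ hF'card
    · rw [Finset.card_insert_of_notMem hfA]; omega
    · rw [hsub]; exact hGT
    · rw [hsub]; exact hr0'
    · rw [hsub]
      intro e he
      rw [Finset.mem_insert] at he
      rcases he with rfl | he
      · exact hfpair
      · exact hApair e he
    · intro e he
      rw [Finset.mem_insert] at he
      rcases he with rfl | he
      · exact hFP f hf
      · exact hAP e he
    · intro e he e' he' hne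
      rw [Finset.mem_insert] at he he'
      rcases he with rfl | he
      · rcases he' with rfl | he'
        · exact absurd rfl hne
        · intro h
          simp only at h
          exact key e' he' (by rw [det_swap', h, neg_zero])
      · rcases he' with rfl | he'
        · exact key e he
        · exact hdist e he e' he' hne
    · rw [hsub]; exact hF'free
    · intro g hg
      rw [hF', Finset.mem_filter, Finset.mem_erase] at hg
      exact hFP g hg.1.2


/-- the first points, in the open set `V` -/
lemma phase1g {s k n : ℕ} (V : Set Pt) (hV : IsOpen V) (hne : V.Nonempty) (N : ℕ)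
    (h : ∀ M B : Finset Pt, M.card = N → (∀ p ∈ M, p ∈ V) → GenPos (M ∪ B) → MakerWinsIn s k n M B) :
    ∀ (j : ℕ) (M B : Finset Pt), M.card + j = N → (∀ p ∈ M, p ∈ V) → GenPos (M ∪ B) →
      MakerWinsIn s k (n + j) M B := by
  classical
  intro j
  induction j with
  | zero => intro M B h1 h2 h3; exact h M B (by omega) h2 h3
  | succ j ih =>
    intro M B h1 h2 h3
    refine mw_step h3 V hV hne ?_
    intro p hpV hp _ T _ _ hG
    apply ih
    · rw [Finset.card_insert_of_notMem (fun h => hp (Finset.mem_union_left B h))]; omega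
    · intro q hq
      rw [Finset.mem_insert] at hq
      rcases hq with rfl | hq
      · exact hpV
      · exact h2 q hq
    · rw [union_eq]; exact hG

lemma maker_wins_five : MakerWinsIn 2 5 26 ∅ ∅ := by
  classical
  have main : ∀ M B : Finset Pt, M.card = 16 → (∀ p ∈ M, p ∈ {z : Pt | 1 < z.2}) → GenPos (M ∪ B) →
      MakerWinsIn 2 5 (4 + 6) M B := by
    intro M B hM hMV hG
    obtain ⟨r₀, hr0U, hr0, hg⟩ := exists_generic (M ∪ B) {z : Pt | z.2 < 0}
      (isOpen_lt continuous_snd continuous_const) ⟨(0, -1), by show (-1 : ℝ) < 0; norm_num⟩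
    have hr0' : r₀.2 < 0 := hr0U
    refine phase2g (r₀ := r₀) (J := 6) (fun p => r₀.2 < p.2) ?_ 6 M B ∅ M (by simp) hG hr0 (by simp)
      (by simp) (by simp) ?_ ?_ (by omega)
    · intro M B A h1 h2 h3 h4 h5
      exact stageA h2 A h1 h3 h4 h5
    · intro f hf
      refine ⟨hf, ?_⟩
      intro x hx hdet
      by_contra hne
      refine hg f (Finset.mem_union_left B hf) x hx (Ne.symm hne) ?_
      rw [← det_cyc]; exact hdet
    · intro f hf
      have : (1:ℝ) < f.2 := hMV f hf
      linarith
  exact phase1g {z : Pt | 1 < z.2} (isOpen_lt continuous_const continuous_snd)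
    ⟨(0, 2), by show (1 : ℝ) < 2; norm_num⟩ 16 main 16 ∅ ∅ (by simp) (by simp) (by
    intro x hx; simp at hx)

end Pool.Agent.V5helper40.FH
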